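import Pool.Agent.Lib.HS33.Lim

/-! The Hoelder classes of exponent one half as predicates: algebra, interpolation, limits. -/

open scoped ContDiff Topology
open Set Filter Metric

noncomputable section

namespace Pool.Agent.Lib.HS33

variable {E : Type} [NormedAddCommGroup E] [NormedSpace ℝ E]
variable {F : Type} [NormedAddCommGroup F] [NormedSpace ℝ F]
variable {G : Type} [NormedAddCommGroup G] [NormedSpace ℝ G]
variable {K : Type} [NormedAddCommGroup K] [NormedSpace ℝ K]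

/-- Directional derivative. -/
def Dv (v : E) (f : E → F) : E → F := fun x => fderiv ℝ f x v

/-- Bound of the supremum and of the Hoelder constant of exponent one half. -/
def H0 (f : E → F) (M : ℝ) : Prop := (∀ x, ‖f x‖ ≤ M) ∧ ∀ x y, ‖f x - f y‖ ≤ M * √‖x - y‖

/-- The same bound for all words of at most `k` derivatives along the vectors `b i`. -/
def H {ι : Type} (b : ι → E) : ℕ → (E → F) → ℝ → Prop
  | 0, f, M => H0 f M
  | k + 1, f, M => H0 f M ∧ ∀ i, H b k (Dv (b i) f) M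

theorem sm_diff {f : E → F} (hf : ContDiff ℝ ∞ f) : Differentiable ℝ f :=
  hf.differentiable (by simp)

theorem sm_fderiv {f : E → F} (hf : ContDiff ℝ ∞ f) : ContDiff ℝ ∞ (fderiv ℝ f) :=
  hf.fderiv_right (m := ∞) (by simp)

theorem Dv_smooth {f : E → F} (hf : ContDiff ℝ ∞ f) (v : E) : ContDiff ℝ ∞ (Dv v f) :=
  (sm_fderiv hf).clm_apply contDiff_const

theorem Dv_cs {f : E → F} (hf : HasCompactSupport f) (v : E) : HasCompactSupport (Dv v f) :=
  (hf.fderiv ℝ).comp_left (g := fun L : E →L[ℝ] F => L v) rfl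

theorem Dv_comm {f : E → F} (hf : ContDiff ℝ ∞ f) (u v : E) :
    Dv u (Dv v f) = Dv v (Dv u f) := by
  funext x
  have h2 : ContDiffAt ℝ 2 f x :=
    (hf.of_le (WithTop.coe_le_coe.2 (le_top : (2 : ℕ∞) ≤ ⊤))).contDiffAt
  have hs := h2.isSymmSndFDerivAt (by simp)
  have hd : DifferentiableAt ℝ (fderiv ℝ f) x := sm_diff (sm_fderiv hf) x
  have key : ∀ a c : E, Dv a (Dv c f) x = fderiv ℝ (fderiv ℝ f) x a c := fun a c => by
    unfold Dv
    rw [fderiv_clm_apply hd (differentiableAt_const c)]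
    simp
  rw [key, key, hs.eq u v]

theorem Dv_const (v : E) (c : F) : Dv v (fun _ => c) = fun _ => 0 := by
  funext x
  simp [Dv]

theorem Dv_add {f g : E → F} (hf : ContDiff ℝ ∞ f) (hg : ContDiff ℝ ∞ g) (v : E) :
    Dv v (fun x => f x + g x) = fun x => Dv v f x + Dv v g x := by
  funext x
  unfold Dv
  rw [fderiv_fun_add (sm_diff hf x) (sm_diff hg x)]
  rfl

theorem Dv_sub {f g : E → F} (hf : ContDiff ℝ ∞ f) (hg : ContDiff ℝ ∞ g) (v : E) :
    Dv v (fun x => f x - g x) = fun x => Dv v f x - Dv v g x := by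
  funext x
  unfold Dv
  rw [fderiv_fun_sub (sm_diff hf x) (sm_diff hg x)]
  rfl

theorem Dv_sum {σ : Type} (s : Finset σ) {f : σ → E → F} (hf : ∀ i ∈ s, ContDiff ℝ ∞ (f i))
    (v : E) : Dv v (fun x => ∑ i ∈ s, f i x) = fun x => ∑ i ∈ s, Dv v (f i) x := by
  funext x
  unfold Dv
  rw [fderiv_fun_sum (fun i hi => sm_diff (hf i hi) x)]
  simp

theorem Dv_clm (L : F →L[ℝ] G) {f : E → F} (hf : ContDiff ℝ ∞ f) (v : E) :
    Dv v (fun x => L (f x)) = fun x => L (Dv v f x) := by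
  funext x
  exact congrArg (fun T : E →L[ℝ] G => T v)
    (L.hasFDerivAt.comp x (sm_diff hf x).hasFDerivAt).fderiv

theorem Dv_bilin (B : F →L[ℝ] G →L[ℝ] K) {f : E → F} {g : E → G} (hf : ContDiff ℝ ∞ f)
    (hg : ContDiff ℝ ∞ g) (v : E) :
    Dv v (fun x => B (f x) (g x)) = fun x => B (Dv v f x) (g x) + B (f x) (Dv v g x) := by
  funext x
  unfold Dv
  rw [B.fderiv_of_bilinear (sm_diff hf x) (sm_diff hg x)]
  simp [add_comm]

theorem Dv_mul {A : Type} [NormedRing A] [NormedAlgebra ℝ A] {f g : E → A} (hf : ContDiff ℝ ∞ f)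
    (hg : ContDiff ℝ ∞ g) (v : E) :
    Dv v (fun x => f x * g x) = fun x => Dv v f x * g x + f x * Dv v g x :=
  Dv_bilin (ContinuousLinearMap.mul ℝ A) hf hg v

theorem Dv_smul {f : E → ℝ} {g : E → F} (hf : ContDiff ℝ ∞ f) (hg : ContDiff ℝ ∞ g) (v : E) :
    Dv v (fun x => f x • g x) = fun x => Dv v f x • g x + f x • Dv v g x :=
  Dv_bilin (ContinuousLinearMap.lsmul ℝ ℝ) hf hg v

theorem Dv_le (v : E) (f : E → F) (x : E) : ‖Dv v f x‖ ≤ ‖v‖ * ‖fderiv ℝ f x‖ := by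
  rw [mul_comm]
  exact (fderiv ℝ f x).le_opNorm v

/-! ### Order zero -/

omit [NormedSpace ℝ E] [NormedSpace ℝ F] in
theorem H0.nonneg {f : E → F} {M : ℝ} (h : H0 f M) : 0 ≤ M := (norm_nonneg _).trans (h.1 0)

omit [NormedSpace ℝ E] [NormedSpace ℝ F] in
theorem H0.mono {f : E → F} {M N : ℝ} (h : H0 f M) (hM : M ≤ N) : H0 f N :=
  ⟨fun x => (h.1 x).trans hM, fun x y =>
    (h.2 x y).trans (mul_le_mul_of_nonneg_right hM (Real.sqrt_nonneg _))⟩

omit [NormedSpace ℝ E] [NormedSpace ℝ F] in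
theorem H0.add {f g : E → F} {M N : ℝ} (hf : H0 f M) (hg : H0 g N) :
    H0 (fun x => f x + g x) (M + N) := by
  refine ⟨fun x => (norm_add_le _ _).trans (add_le_add (hf.1 x) (hg.1 x)), fun x y => ?_⟩
  rw [add_sub_add_comm, add_mul]
  exact (norm_add_le _ _).trans (add_le_add (hf.2 x y) (hg.2 x y))

omit [NormedSpace ℝ E] in
theorem H0.clm (L : F →L[ℝ] G) {c : ℝ} (hc : 0 ≤ c) (hL : ∀ u, ‖L u‖ ≤ c * ‖u‖) {f : E → F}
    {M : ℝ} (hf : H0 f M) : H0 (fun x => L (f x)) (c * M) := by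
  refine ⟨fun x => (hL _).trans (mul_le_mul_of_nonneg_left (hf.1 x) hc), fun x y => ?_⟩
  rw [← map_sub, mul_assoc]
  exact (hL _).trans (mul_le_mul_of_nonneg_left (hf.2 x y) hc)

omit [NormedSpace ℝ E] in
theorem H0.bilin (B : F →L[ℝ] G →L[ℝ] K) {c : ℝ} (hc : 0 ≤ c)
    (hB : ∀ u w, ‖B u w‖ ≤ c * ‖u‖ * ‖w‖) {f : E → F} {g : E → G} {M N : ℝ} (hf : H0 f M)
    (hg : H0 g N) : H0 (fun x => B (f x) (g x)) (2 * c * M * N) := by
  have hM := hf.nonneg
  have hN := hg.nonneg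
  refine ⟨fun x => (hB _ _).trans ?_, fun x y => ?_⟩
  · have h1 : c * ‖f x‖ * ‖g x‖ ≤ c * M * N := by gcongr; exacts [hf.1 x, hg.1 x]
    have h2 : 0 ≤ c * M * N := by positivity
    linarith
  · have e : B (f x) (g x) - B (f y) (g y) = B (f x - f y) (g x) + B (f y) (g x - g y) := by
      simp
    have h1 : c * ‖f x - f y‖ * ‖g x‖ ≤ c * (M * √‖x - y‖) * N := by
      gcongr; exacts [hf.2 x y, hg.1 x]
    have h2 : c * ‖f y‖ * ‖g x - g y‖ ≤ c * M * (N * √‖x - y‖) := by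
      gcongr; exacts [hf.1 y, hg.2 x y]
    rw [e]
    have := norm_add_le (B (f x - f y) (g x)) (B (f y) (g x - g y))
    linarith [hB (f x - f y) (g x), hB (f y) (g x - g y)]

omit [NormedSpace ℝ E] [NormedSpace ℝ F] in
/-- The Hoelder constant of a bounded Lipschitz function. -/
theorem hol_of_lip {f : E → F} {A L h : ℝ} (hh : 0 < h) (hL0 : 0 ≤ L) (hA : ∀ x, ‖f x‖ ≤ A)
    (hL : ∀ x y, ‖f x - f y‖ ≤ L * ‖x - y‖) (x y : E) :
    ‖f x - f y‖ ≤ (L * h + 2 * A / h) * √‖x - y‖ := by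
  have hA0 : 0 ≤ A := (norm_nonneg _).trans (hA 0)
  have hs := Real.sqrt_nonneg ‖x - y‖
  have hq := Real.mul_self_sqrt (norm_nonneg (x - y))
  have p1 : 0 ≤ L * h * √‖x - y‖ := by positivity
  have p2 : 0 ≤ 2 * A / h * √‖x - y‖ := by positivity
  rw [add_mul]
  rcases le_total (√‖x - y‖) h with c | c
  · have h1 := hL x y
    have h2 : L * (√‖x - y‖ * √‖x - y‖) ≤ L * (h * √‖x - y‖) := by gcongr
    rw [hq] at h2
    linarith
  · have h1 : 2 * A / h * h ≤ 2 * A / h * √‖x - y‖ := by gcongr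
    rw [div_mul_cancel₀ _ hh.ne'] at h1
    linarith [norm_sub_le (f x) (f y), hA x, hA y]

theorem lip_of_fderiv {f : E → F} (hf : Differentiable ℝ f) {L : ℝ}
    (hL : ∀ x, ‖fderiv ℝ f x‖ ≤ L) (x y : E) : ‖f x - f y‖ ≤ L * ‖x - y‖ :=
  convex_univ.norm_image_sub_le_of_norm_fderiv_le (𝕜 := ℝ) (fun z _ => hf z) (fun z _ => hL z)
    (mem_univ y) (mem_univ x)

theorem H0.of_fderiv {f : E → F} (hf : Differentiable ℝ f) {A L h : ℝ} (hh : 0 < h) (h1 : h ≤ 1)
    (hA : ∀ x, ‖f x‖ ≤ A) (hL : ∀ x, ‖fderiv ℝ f x‖ ≤ L) : H0 f (L * h + 2 * A / h) := by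
  have hA0 : 0 ≤ A := (norm_nonneg _).trans (hA 0)
  have hL0 : 0 ≤ L := (norm_nonneg _).trans (hL 0)
  refine ⟨fun x => (hA x).trans ?_, hol_of_lip hh hL0 hA (lip_of_fderiv hf hL)⟩
  have h2 : A ≤ 2 * A / h := by
    rw [le_div_iff₀ hh]
    nlinarith
  have : 0 ≤ L * h := by positivity
  linarith

/-! ### Algebra -/

section alg

variable {ι : Type} {b : ι → E}

theorem H.h0 {k : ℕ} {f : E → F} {M : ℝ} (h : H b k f M) : H0 f M := by
  cases k with
  | zero => exact h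
  | succ k => exact h.1

theorem H.nonneg {k : ℕ} {f : E → F} {M : ℝ} (h : H b k f M) : 0 ≤ M := h.h0.nonneg

theorem H.bound {k : ℕ} {f : E → F} {M : ℝ} (h : H b k f M) (x : E) : ‖f x‖ ≤ M := h.h0.1 x

theorem H.dv {k : ℕ} {f : E → F} {M : ℝ} (h : H b (k + 1) f M) (i : ι) :
    H b k (Dv (b i) f) M := h.2 i

theorem H.mono {k : ℕ} : ∀ {f : E → F} {M N : ℝ}, H b k f M → M ≤ N → H b k f N := by
  induction k with
  | zero => exact fun h hM => H0.mono h hM
  | succ k ih => exact fun h hM => ⟨h.1.mono hM, fun i => ih (h.2 i) hM⟩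

theorem H.pred {k : ℕ} : ∀ {f : E → F} {M : ℝ}, H b (k + 1) f M → H b k f M := by
  induction k with
  | zero => exact fun h => h.1
  | succ k ih => exact fun h => ⟨h.1, fun i => ih (h.2 i)⟩

theorem H.anti {j k : ℕ} (hj : j ≤ k) {f : E → F} {M : ℝ} (h : H b k f M) : H b j f M := by
  induction hj with
  | refl => exact h
  | step _ ih => exact ih h.pred

theorem H.const (k : ℕ) : ∀ (c : F) {M : ℝ}, ‖c‖ ≤ M → H b k (fun _ : E => c) M := by
  have h0 : ∀ (c : F) {M : ℝ}, ‖c‖ ≤ M → H0 (fun _ : E => c) M := fun c M h =>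
    ⟨fun _ => h, fun x y => by
      rw [sub_self, norm_zero]
      exact mul_nonneg ((norm_nonneg _).trans h) (Real.sqrt_nonneg _)⟩
  induction k with
  | zero => exact h0
  | succ k ih =>
    refine fun c M h => ⟨h0 c h, fun i => ?_⟩
    rw [Dv_const]
    exact ih 0 (by rw [norm_zero]; exact (norm_nonneg _).trans h)

theorem H.add {k : ℕ} : ∀ {f g : E → F} {M N : ℝ}, ContDiff ℝ ∞ f → ContDiff ℝ ∞ g →
    H b k f M → H b k g N → H b k (fun x => f x + g x) (M + N) := by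
  induction k with
  | zero => exact fun _ _ hf hg => H0.add hf hg
  | succ k ih =>
    refine fun sf sg hf hg => ⟨hf.1.add hg.1, fun i => ?_⟩
    rw [Dv_add sf sg]
    exact ih (Dv_smooth sf _) (Dv_smooth sg _) (hf.2 i) (hg.2 i)

theorem H.clm (L : F →L[ℝ] G) {c : ℝ} (hc : 0 ≤ c) (hL : ∀ u, ‖L u‖ ≤ c * ‖u‖) {k : ℕ} :
    ∀ {f : E → F} {M : ℝ}, ContDiff ℝ ∞ f → H b k f M → H b k (fun x => L (f x)) (c * M) := by
  induction k with
  | zero => exact fun _ hf => H0.clm L hc hL hf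
  | succ k ih =>
    refine fun sf hf => ⟨hf.1.clm L hc hL, fun i => ?_⟩
    rw [Dv_clm L sf]
    exact ih (Dv_smooth sf _) (hf.2 i)

theorem H.clm_one (L : F →L[ℝ] G) (hL : ∀ u, ‖L u‖ ≤ ‖u‖) {k : ℕ} {f : E → F} {M : ℝ}
    (sf : ContDiff ℝ ∞ f) (hf : H b k f M) : H b k (fun x => L (f x)) M := by
  have := H.clm L zero_le_one (by simpa using hL) sf hf
  rwa [one_mul] at this

theorem H.neg {k : ℕ} {f : E → F} {M : ℝ} (sf : ContDiff ℝ ∞ f) (hf : H b k f M) :
    H b k (fun x => -f x) M :=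
  H.clm_one (-ContinuousLinearMap.id ℝ F) (by simp) sf hf

theorem H.sub {k : ℕ} {f g : E → F} {M N : ℝ} (sf : ContDiff ℝ ∞ f) (sg : ContDiff ℝ ∞ g)
    (hf : H b k f M) (hg : H b k g N) : H b k (fun x => f x - g x) (M + N) := by
  simpa only [sub_eq_add_neg] using H.add sf sg.neg hf (H.neg sg hg)

theorem H.const_smul {k : ℕ} (c : ℝ) {f : E → F} {M : ℝ} (sf : ContDiff ℝ ∞ f)
    (hf : H b k f M) : H b k (fun x => c • f x) (|c| * M) :=
  H.clm (c • ContinuousLinearMap.id ℝ F) (abs_nonneg c) (by simp [norm_smul]) sf hf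

theorem H.const_mul {A : Type} [NormedRing A] [NormedAlgebra ℝ A] {k : ℕ} (c : A) {f : E → A}
    {M : ℝ} (sf : ContDiff ℝ ∞ f) (hf : H b k f M) : H b k (fun x => c * f x) (‖c‖ * M) :=
  H.clm (ContinuousLinearMap.mul ℝ A c) (norm_nonneg c) (fun u => norm_mul_le c u) sf hf

theorem H.re {k : ℕ} {f : E → ℂ} {M : ℝ} (sf : ContDiff ℝ ∞ f) (hf : H b k f M) :
    H b k (fun x => (f x).re) M :=
  H.clm_one Complex.reCLM (fun u => Complex.abs_re_le_norm u) sf hf

theorem H.im {k : ℕ} {f : E → ℂ} {M : ℝ} (sf : ContDiff ℝ ∞ f) (hf : H b k f M) :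
    H b k (fun x => (f x).im) M :=
  H.clm_one Complex.imCLM (fun u => Complex.abs_im_le_norm u) sf hf

theorem H.ofReal {k : ℕ} {f : E → ℝ} {M : ℝ} (sf : ContDiff ℝ ∞ f) (hf : H b k f M) :
    H b k (fun x => (f x : ℂ)) M :=
  H.clm_one Complex.ofRealCLM (fun u => by simp) sf hf

theorem H.conj {k : ℕ} {f : E → ℂ} {M : ℝ} (sf : ContDiff ℝ ∞ f) (hf : H b k f M) :
    H b k (fun x => (starRingEnd ℂ) (f x)) M :=
  H.clm_one (Complex.conjCLE : ℂ →L[ℝ] ℂ) (fun u => by simp) sf hf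

theorem H.sum {σ : Type} (s : Finset σ) {k : ℕ} {f : σ → E → F} {M : σ → ℝ}
    (sf : ∀ i ∈ s, ContDiff ℝ ∞ (f i)) (hf : ∀ i ∈ s, H b k (f i) (M i)) :
    H b k (fun x => ∑ i ∈ s, f i x) (∑ i ∈ s, M i) := by
  classical
  induction s using Finset.induction_on with
  | empty => simpa using H.const k (0 : F) (M := 0) (by simp)
  | insert a s ha ih =>
    simp only [Finset.sum_insert ha]
    exact H.add (sf a (by simp)) (ContDiff.sum fun i hi => sf i (by simp [hi])) (hf a (by simp))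
      (ih (fun i hi => sf i (by simp [hi])) fun i hi => hf i (by simp [hi]))

theorem H.bilin (B : F →L[ℝ] G →L[ℝ] K) {c : ℝ} (hc : 0 ≤ c)
    (hB : ∀ u w, ‖B u w‖ ≤ c * ‖u‖ * ‖w‖) {k : ℕ} : ∀ {f : E → F} {g : E → G} {M N : ℝ},
    ContDiff ℝ ∞ f → ContDiff ℝ ∞ g → H b k f M → H b k g N →
      H b k (fun x => B (f x) (g x)) (2 ^ (k + 1) * c * M * N) := by
  induction k with
  | zero => exact fun _ _ hf hg => (H0.bilin B hc hB hf hg).mono (le_of_eq (by norm_num))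
  | succ k ih =>
    intro f g M N sf sg hf hg
    have hM := hf.nonneg
    have hN := hg.nonneg
    refine ⟨(H0.bilin B hc hB hf.1 hg.1).mono ?_, fun i => ?_⟩
    · have : (2 : ℝ) ≤ 2 ^ (k + 1 + 1) := le_self_pow₀ one_le_two (by omega)
      gcongr
    · rw [Dv_bilin B sf sg]
      refine (H.add ((B.contDiff.comp (Dv_smooth sf _)).clm_apply sg)
        ((B.contDiff.comp sf).clm_apply (Dv_smooth sg _))
        (ih (Dv_smooth sf _) sg (hf.2 i) hg.pred) (ih sf (Dv_smooth sg _) hf.pred (hg.2 i))).mono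
        (le_of_eq ?_)
      ring

theorem H.mul {A : Type} [NormedRing A] [NormedAlgebra ℝ A] {k : ℕ} {f g : E → A} {M N : ℝ}
    (sf : ContDiff ℝ ∞ f) (sg : ContDiff ℝ ∞ g) (hf : H b k f M) (hg : H b k g N) :
    H b k (fun x => f x * g x) (2 ^ (k + 1) * M * N) := by
  have := H.bilin (ContinuousLinearMap.mul ℝ A) zero_le_one
    (fun u w => by simpa using norm_mul_le u w) sf sg hf hg
  rwa [mul_one] at this

theorem H.smul {k : ℕ} {f : E → ℝ} {g : E → F} {M N : ℝ}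
    (sf : ContDiff ℝ ∞ f) (sg : ContDiff ℝ ∞ g) (hf : H b k f M) (hg : H b k g N) :
    H b k (fun x => f x • g x) (2 ^ (k + 1) * M * N) := by
  have := H.bilin (ContinuousLinearMap.lsmul ℝ ℝ : ℝ →L[ℝ] F →L[ℝ] F) zero_le_one
    (fun u w => by simp [norm_smul]) sf sg hf hg
  rwa [mul_one] at this

/-- Derivatives along the vectors `b i` may be taken last or first. -/
theorem H.succ_of {k : ℕ} {f : E → F} {M : ℝ} (h0 : H0 f M) (h : ∀ i, H b k (Dv (b i) f) M) :
    H b (k + 1) f M := ⟨h0, h⟩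

/-- Translations and contractions of the variable. -/
theorem H.scale {k : ℕ} (a : E) {r : ℝ} (hr : |r| ≤ 1) : ∀ {f : E → F} {M : ℝ}, ContDiff ℝ ∞ f →
    H b k f M → H b k (fun x => f (a + r • x)) M := by
  have h0 : ∀ {f : E → F} {M : ℝ}, H0 f M → H0 (fun x => f (a + r • x)) M := fun h =>
    ⟨fun x => h.1 _, fun x y => (h.2 _ _).trans (mul_le_mul_of_nonneg_left (Real.sqrt_le_sqrt (by
      rw [add_sub_add_left_eq_sub, ← smul_sub, norm_smul, Real.norm_eq_abs]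
      exact mul_le_of_le_one_left (norm_nonneg _) hr)) h.nonneg)⟩
  induction k with
  | zero => exact fun _ h => h0 h
  | succ k ih =>
    intro f M sf hf
    refine ⟨h0 hf.1, fun i => ?_⟩
    have e : Dv (b i) (fun x => f (a + r • x)) = fun x => r • Dv (b i) f (a + r • x) := by
      funext x
      have h1 : HasFDerivAt (fun x : E => a + r • x) (r • ContinuousLinearMap.id ℝ E) x :=
        ((hasFDerivAt_id x).const_smul r).const_add a
      have := ((sm_diff sf _).hasFDerivAt.comp x h1).fderiv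
      unfold Dv
      rw [show (fun x => f (a + r • x)) = f ∘ fun x => a + r • x from rfl, this]
      simp
    rw [e]
    refine (H.const_smul r ((Dv_smooth sf _).comp (by fun_prop))
      (ih (Dv_smooth sf _) (hf.2 i))).mono ?_
    exact mul_le_of_le_one_left hf.nonneg hr

end alg

/-! ### Comparison with iterated derivatives -/

theorem H.of_iter {ι : Type} [Finite ι] (b : ι → E) (k : ℕ) : ∃ C, 0 < C ∧ ∀ (f : E → F) (M : ℝ),
    ContDiff ℝ ∞ f → (∀ j ≤ k + 1, ∀ x, ‖iteratedFDeriv ℝ j f x‖ ≤ M) → H b k f (C * M) := by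
  have h0 : ∀ (f : E → F) (M : ℝ), ContDiff ℝ ∞ f → (∀ x, ‖iteratedFDeriv ℝ 0 f x‖ ≤ M) →
      (∀ x, ‖iteratedFDeriv ℝ 1 f x‖ ≤ M) → H0 f (3 * M) := fun f M sf h1 h2 =>
    (H0.of_fderiv (sm_diff sf) one_pos le_rfl (A := M) (L := M) (fun x => by simpa using h1 x)
      fun x => by simpa [norm_iteratedFDeriv_one] using h2 x).mono (le_of_eq (by ring))
  obtain ⟨R, hR⟩ := (Set.finite_range fun i => ‖b i‖).bddAbove
  induction k with
  | zero => exact ⟨3, by norm_num, fun f M sf h => h0 f M sf (h 0 (by omega)) (h 1 (by omega))⟩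
  | succ k ih =>
    obtain ⟨C, hC, ih⟩ := ih
    refine ⟨3 + C * |R|, by positivity, fun f M sf h => ?_⟩
    have hM : 0 ≤ M := (norm_nonneg _).trans (h 0 (by omega) 0)
    have p1 : 0 ≤ C * |R| * M := by positivity
    refine ⟨(h0 f M sf (h 0 (by omega)) (h 1 (by omega))).mono (by linarith), fun i => ?_⟩
    refine (ih _ (|R| * M) (Dv_smooth sf _) fun j hj x => ?_).mono (by linarith)
    refine (norm_iteratedFDeriv_clm_apply_const (sm_fderiv sf).contDiffAt
      (WithTop.coe_le_coe.2 le_top)).trans ?_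
    rw [norm_iteratedFDeriv_fderiv]
    exact mul_le_mul ((hR ⟨i, rfl⟩).trans (le_abs_self R)) (h _ (by omega) x) (norm_nonneg _)
      (abs_nonneg R)

theorem iter_bdd_cs {f : E → F} (sf : ContDiff ℝ ∞ f) (hc : HasCompactSupport f) (k : ℕ) :
    ∃ M, ∀ j ≤ k, ∀ x, ‖iteratedFDeriv ℝ j f x‖ ≤ M := by
  have h : ∀ j, ∃ M, ∀ x, ‖iteratedFDeriv ℝ j f x‖ ≤ M := fun j =>
    (sf.continuous_iteratedFDeriv (WithTop.coe_le_coe.2 le_top)).bounded_above_of_compact_support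
      (hc.iteratedFDeriv j)
  choose M hM using h
  refine ⟨∑ j ∈ Finset.range (k + 1), |M j|, fun j hj x => (hM j x).trans ((le_abs_self _).trans ?_)⟩
  exact Finset.single_le_sum (f := fun j => |M j|) (fun _ _ => abs_nonneg _)
    (Finset.mem_range.2 (by omega))

/-- Smooth functions with compact support are in all classes. -/
theorem H.of_cs {ι : Type} [Finite ι] (b : ι → E) (k : ℕ) {f : E → F} (sf : ContDiff ℝ ∞ f)
    (hc : HasCompactSupport f) : ∃ M, H b k f M := by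
  obtain ⟨C, -, h⟩ := H.of_iter (F := F) b k
  obtain ⟨M, hM⟩ := iter_bdd_cs sf hc (k + 1)
  exact ⟨_, h f M sf hM⟩

section basis

variable [FiniteDimensional ℝ E] {ι : Type} [Fintype ι] (b : Module.Basis ι ℝ E)

theorem fderiv_eq_sum (f : E → F) : fderiv ℝ f = fun x => ∑ i, ContinuousLinearMap.smulRightL ℝ E F
    (LinearMap.toContinuousLinearMap (b.coord i)) (Dv (b i) f x) := by
  funext x
  ext v
  have := congrArg (fderiv ℝ f x) (b.sum_repr v)
  rw [map_sum] at this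
  simpa [Dv] using this.symm

theorem H.iter (k : ℕ) : ∃ C, 0 < C ∧ ∀ (f : E → F) (M : ℝ), ContDiff ℝ ∞ f → H b k f M →
    ∀ x, ‖iteratedFDeriv ℝ k f x‖ ≤ C * M := by
  induction k with
  | zero => exact ⟨1, one_pos, fun f M _ h x => by simpa using h.bound x⟩
  | succ k ih =>
    obtain ⟨C, hC, ih⟩ := ih
    let L : ι → F →L[ℝ] E →L[ℝ] F := fun i => ContinuousLinearMap.smulRightL ℝ E F
      (LinearMap.toContinuousLinearMap (b.coord i))
    refine ⟨1 + ∑ i, ‖L i‖ * C, by positivity, fun f M sf h x => ?_⟩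
    have hM := h.nonneg
    have hs : ∀ i, ContDiff ℝ k fun x => L i (Dv (b i) f x) := fun i =>
      ((L i).contDiff.comp (Dv_smooth sf _)).of_le (WithTop.coe_le_coe.2 le_top)
    rw [← norm_iteratedFDeriv_fderiv, fderiv_eq_sum b f,
      iteratedFDeriv_fun_sum_apply fun i _ => (hs i).contDiffAt, add_mul, Finset.sum_mul]
    refine (norm_sum_le _ _).trans ((Finset.sum_le_sum fun i _ => ?_).trans
      (le_add_of_nonneg_left (by linarith)))
    refine ((L i).norm_iteratedFDeriv_comp_left (Dv_smooth sf (b i)).contDiffAt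
      (WithTop.coe_le_coe.2 le_top)).trans ?_
    rw [mul_assoc]
    exact mul_le_mul_of_nonneg_left (ih _ M (Dv_smooth sf _) (h.dv i) x) (norm_nonneg _)

theorem H.fderiv_le : ∃ C, 0 < C ∧ ∀ (f : E → F) (M : ℝ), ContDiff ℝ ∞ f → H b 1 f M →
    ∀ x, ‖fderiv ℝ f x‖ ≤ C * M := by
  obtain ⟨C, hC, h⟩ := H.iter (F := F) b 1
  exact ⟨C, hC, fun f M sf hf x => by simpa [norm_iteratedFDeriv_one] using h f M sf hf x⟩

/-- Derivative along an arbitrary vector. -/
theorem H.dv_any (v : E) : ∃ C, 0 < C ∧ ∀ (k : ℕ) (f : E → F) (M : ℝ), ContDiff ℝ ∞ f →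
    H b (k + 1) f M → H b k (Dv v f) (C * M) := by
  refine ⟨1 + ∑ i, |b.repr v i|, by positivity, fun k f M sf h => ?_⟩
  have e : Dv v f = fun x => ∑ i, b.repr v i • Dv (b i) f x := by
    funext x
    have := congrArg (fderiv ℝ f x) (b.sum_repr v)
    rw [map_sum] at this
    simpa [Dv] using this.symm
  rw [e]
  refine (H.sum Finset.univ (fun i _ => (Dv_smooth sf _).const_smul _)
    fun i _ => H.const_smul _ (Dv_smooth sf _) (h.dv i)).mono ?_
  rw [add_mul, Finset.sum_mul]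
  exact le_add_of_nonneg_left (by linarith [h.nonneg])

/-- Interpolation. -/
theorem H.intp (k : ℕ) : ∀ ε : ℝ, 0 < ε → ∃ C, 0 < C ∧ ∀ (f : E → F) (M A : ℝ),
    ContDiff ℝ ∞ f → H b (k + 1) f M → (∀ x, ‖f x‖ ≤ A) → H b k f (ε * M + C * A) := by
  have h0 : ∀ ε : ℝ, 0 < ε → ∃ C, 0 < C ∧ ∀ (f : E → F) (M A : ℝ),
      ContDiff ℝ ∞ f → H b 1 f M → (∀ x, ‖f x‖ ≤ A) → H0 f (ε * M + C * A) := fun ε hε => by
    obtain ⟨C, hC, h⟩ := H.fderiv_le (F := F) b
    have hh : 0 < min 1 (ε / C) := by positivity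
    refine ⟨2 / min 1 (ε / C), by positivity, fun f M A sf hf hA => ?_⟩
    refine (H0.of_fderiv (sm_diff sf) hh (min_le_left _ _) hA (h f M sf hf)).mono ?_
    have h1 : C * M * min 1 (ε / C) ≤ C * M * (ε / C) :=
      mul_le_mul_of_nonneg_left (min_le_right _ _) (mul_nonneg hC.le hf.nonneg)
    have h2 : C * M * (ε / C) = ε * M := by field_simp
    have h3 : 2 * A / min 1 (ε / C) = 2 / min 1 (ε / C) * A := by ring
    linarith
  induction k with
  | zero => exact h0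
  | succ k ih =>
    intro ε hε
    obtain ⟨C0, hC0, h0⟩ := h0 ε hε
    obtain ⟨C1, hC1, ih⟩ := ih (ε / 2) (by positivity)
    obtain ⟨C2, hC2, h2⟩ := H.iter (F := F) b 2
    obtain ⟨R, hR⟩ := (Set.finite_range fun i => ‖b i‖).bddAbove
    obtain ⟨h, hh, e⟩ : ∃ h : ℝ, 0 < h ∧ C1 * (|R| + 1) * C2 * h = ε / 2 :=
      ⟨ε / 2 / (C1 * (|R| + 1) * C2), by positivity, by field_simp⟩
    refine ⟨C0 + C1 * (|R| + 1) * 2 / h, by positivity, fun f M A sf hf hA => ?_⟩
    have hA0 : 0 ≤ A := (norm_nonneg _).trans (hA 0)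
    have hM := hf.nonneg
    have p1 : 0 ≤ C1 * (|R| + 1) * 2 / h * A := by positivity
    have p2 : 0 ≤ C0 * A := by positivity
    refine ⟨(h0 f M A sf (hf.anti (by omega)) hA).mono (by linarith), fun i => ?_⟩
    refine (ih _ M ((|R| + 1) * (2 * A / h + C2 * M * h)) (Dv_smooth sf _) (hf.dv i)
      fun x => (Dv_le _ _ _).trans ?_).mono ?_
    · refine mul_le_mul (((hR ⟨i, rfl⟩).trans (le_abs_self R)).trans (by linarith)) ?_
        (norm_nonneg _) (by positivity)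
      exact HS33.fderiv_le isOpen_univ sf.contDiffOn hh (subset_univ _) (fun z _ => hA z)
        fun z _ => h2 f M sf (hf.anti (by omega)) z
    · have : C1 * ((|R| + 1) * (2 * A / h + C2 * M * h))
          = C1 * (|R| + 1) * 2 / h * A + C1 * (|R| + 1) * C2 * h * M := by ring
      rw [this, e]
      linarith

/-- Interpolation from any higher order. -/
theorem H.intp_le {j k : ℕ} (hj : j < k) {ε : ℝ} (hε : 0 < ε) : ∃ C, 0 < C ∧
    ∀ (f : E → F) (M A : ℝ), ContDiff ℝ ∞ f → H b k f M → (∀ x, ‖f x‖ ≤ A) →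
      H b j f (ε * M + C * A) := by
  obtain ⟨C, hC, h⟩ := H.intp (F := F) b j ε hε
  exact ⟨C, hC, fun f M A sf hf hA => h f M A sf (hf.anti hj) hA⟩

variable [CompleteSpace F] {α : Type} {l : Filter α} [l.NeBot]

omit [CompleteSpace F] [l.NeBot] in
theorem iter_of_H {f : α → E → F} (sf : ∀ᶠ m in l, ContDiff ℝ ∞ (f m))
    (hb : ∀ k, ∃ M, ∀ᶠ m in l, H b k (f m) M) (j : ℕ) :
    ∃ C, ∀ᶠ m in l, ∀ z ∈ (univ : Set E), ‖iteratedFDeriv ℝ j (f m) z‖ ≤ C := by
  obtain ⟨C, -, h⟩ := H.iter (F := F) b j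
  obtain ⟨M, hM⟩ := hb j
  exact ⟨C * M, (sf.and hM).mono fun m hm z _ => h _ M hm.1 hm.2 z⟩

theorem lim_sm {f : α → E → F} {g : E → F} (sf : ∀ᶠ m in l, ContDiff ℝ ∞ (f m))
    (hb : ∀ k, ∃ M, ∀ᶠ m in l, H b k (f m) M) (hg : ∀ x, Tendsto (fun m => f m x) l (𝓝 (g x))) :
    ContDiff ℝ ∞ g :=
  contDiffOn_univ.1 (lim_smooth isOpen_univ (sf.mono fun _ h => h.contDiffOn) (iter_of_H b sf hb)
    fun x _ => hg x).1

theorem lim_Dv {f : α → E → F} {g : E → F} (sf : ∀ᶠ m in l, ContDiff ℝ ∞ (f m))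
    (hb : ∃ M, ∀ᶠ m in l, H b 2 (f m) M) (hg : ∀ x, Tendsto (fun m => f m x) l (𝓝 (g x)))
    (v x : E) : Tendsto (fun m => Dv v (f m) x) l (𝓝 (Dv v g x)) := by
  obtain ⟨C, -, h⟩ := H.iter (F := F) b 2
  obtain ⟨M, hM⟩ := hb
  exact ((ContinuousLinearMap.apply ℝ F v).continuous.tendsto _).comp
    (lim_step isOpen_univ (sf.mono fun _ h => h.contDiffOn) (C := C * M)
      ((sf.and hM).mono fun m hm z _ => h _ M hm.1 hm.2 z) (fun x _ => hg x) (mem_univ x)).2

/-- The classes are closed under pointwise limits of families that are bounded in all classes. -/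
theorem H.lim (k : ℕ) : ∀ {f : α → E → F} {g : E → F}, (∀ᶠ m in l, ContDiff ℝ ∞ (f m)) →
    (∀ j, ∃ M, ∀ᶠ m in l, H b j (f m) M) → (∀ x, Tendsto (fun m => f m x) l (𝓝 (g x))) →
    ∀ {M : ℝ}, (∀ᶠ m in l, H b k (f m) M) → H b k g M := by
  have h0 : ∀ {f : α → E → F} {g : E → F}, (∀ x, Tendsto (fun m => f m x) l (𝓝 (g x))) →
      ∀ {M : ℝ}, (∀ᶠ m in l, H0 (f m) M) → H0 g M := fun hg M hM =>
    ⟨fun x => le_of_tendsto (hg x).norm (hM.mono fun m h => h.1 x), fun x y =>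
      le_of_tendsto ((hg x).sub (hg y)).norm (hM.mono fun m h => h.2 x y)⟩
  induction k with
  | zero => exact fun _ _ hg _ hM => h0 hg hM
  | succ k ih =>
    intro f g sf hb hg M hM
    refine ⟨h0 hg (hM.mono fun m h => h.1), fun i => ?_⟩
    refine ih (f := fun m => Dv (b i) (f m)) (sf.mono fun m h => Dv_smooth h _) (fun j => ?_)
      (lim_Dv b sf (hb 2) hg _) (hM.mono fun m h => h.2 i)
    obtain ⟨N, hN⟩ := hb (j + 1)
    exact ⟨N, hN.mono fun m h => h.dv i⟩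

/-- Uniform convergence and bounds in all classes give convergence in all classes. -/
theorem H.lim_sub {f : α → E → F} {g : E → F} (sf : ∀ᶠ m in l, ContDiff ℝ ∞ (f m))
    (hb : ∀ j, ∃ M, ∀ᶠ m in l, H b j (f m) M) (hg : TendstoUniformly f g l) (k : ℕ) {ε : ℝ}
    (hε : 0 < ε) : ∀ᶠ m in l, H b k (fun x => f m x - g x) ε := by
  have hp := fun x => hg.tendsto_at x
  have sg := lim_sm b sf hb hp
  obtain ⟨M, hM⟩ := hb (k + 1)
  have hgM := H.lim b (k + 1) sf hb hp hM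
  have hM0 := hgM.nonneg
  obtain ⟨C, hC, h⟩ := H.intp (F := F) b k (ε / 2 / (M + M + 1)) (by positivity)
  filter_upwards [sf, hM, Metric.tendstoUniformly_iff.1 hg (ε / 2 / C) (by positivity)]
    with m h1 h2 h3
  refine (h _ _ (ε / 2 / C) (h1.sub sg) (H.sub h1 sg h2 hgM) fun x => ?_).mono ?_
  · rw [← dist_eq_norm, dist_comm]
    exact (h3 x).le
  · have e1 : C * (ε / 2 / C) = ε / 2 := by field_simp
    have e2 : ε / 2 / (M + M + 1) * (M + M) ≤ ε / 2 := by
      rw [div_mul_eq_mul_div, div_le_iff₀ (by positivity)]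
      nlinarith
    linarith

/-- A uniformly Cauchy sequence that is bounded in all classes has a smooth limit. -/
theorem H.cauchy {f : ℕ → E → F} (sf : ∀ m, ContDiff ℝ ∞ (f m))
    (hb : ∀ j, ∃ M, ∀ᶠ m in atTop, H b j (f m) M) (hc : UniformCauchySeqOn f atTop univ) :
    ∃ g, ContDiff ℝ ∞ g ∧ TendstoUniformly f g atTop ∧
      (∀ k M, (∀ᶠ m in atTop, H b k (f m) M) → H b k g M) ∧
      ∀ k ε, 0 < ε → ∀ᶠ m in atTop, H b k (fun x => f m x - g x) ε := by
  choose g hg using fun x => cauchySeq_tendsto_of_complete (hc.cauchySeq (mem_univ x))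
  have hu : TendstoUniformly f g atTop :=
    tendstoUniformlyOn_univ.1 (hc.tendstoUniformlyOn_of_tendsto fun x _ => hg x)
  have sf' := Eventually.of_forall (f := atTop) sf
  exact ⟨g, lim_sm b sf' hb hg, hu, fun k M h => H.lim b k sf' hb hg h,
    fun k ε h => H.lim_sub b sf' hb hu k h⟩

end basis

end Pool.Agent.Lib.HS33
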