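import Pool.Agent.Lib.HS21.LDefs
import Pool.Agent.Lib.HS33.HK

/-! Algebra of the Hoelder classes on sets. -/

open scoped Classical Topology ContDiff
open Set Filter Complex Metric

noncomputable section

namespace Pool.Agent.Lib.HS21

open Pool.Agent.Lib.SV (E)

variable {n : ℕ}

/-! ### Derivatives at a point -/

section pt

variable {f g : E n → ℂ} {x : E n}

theorem ev_dif (hf : ContDiffAt ℝ ∞ f x) : ∀ᶠ y in 𝓝 x, DifferentiableAt ℝ f y :=
  ((hf.of_le (WithTop.coe_le_coe.2 (le_top : (1 : ℕ∞) ≤ ⊤))).eventually (by simp)).mono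
    fun _ h => h.differentiableAt (by simp)

theorem cd_D (hf : ContDiffAt ℝ ∞ f x) (i : Ix n) : ContDiffAt ℝ ∞ (D i f) x :=
  (hf.fderiv_right (m := ∞) (by simp)).clm_apply contDiffAt_const

theorem cd_Dl (l : List (Ix n)) : ∀ {f : E n → ℂ}, ContDiffAt ℝ ∞ f x →
    ContDiffAt ℝ ∞ (Dl l f) x := by
  induction l with
  | nil => exact fun h => h
  | cons i l ih => exact fun h => ih (cd_D h i)

theorem D_congr (h : f =ᶠ[𝓝 x] g) (i : Ix n) : D i f =ᶠ[𝓝 x] D i g :=
  (h.fderiv (𝕜 := ℝ)).mono fun y hy => by simp only [D, hy]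

theorem Dl_congr (l : List (Ix n)) : ∀ {f g : E n → ℂ}, f =ᶠ[𝓝 x] g →
    Dl l f =ᶠ[𝓝 x] Dl l g := by
  induction l with
  | nil => exact fun h => h
  | cons i l ih => exact fun h => ih (D_congr h i)

theorem D_const (i : Ix n) (c : ℂ) : D i (fun _ => c) = fun _ => 0 := HS33.Dv_const _ c

theorem D_add (hf : ContDiffAt ℝ ∞ f x) (hg : ContDiffAt ℝ ∞ g x) (i : Ix n) :
    D i (fun y => f y + g y) =ᶠ[𝓝 x] fun y => D i f y + D i g y := by
  filter_upwards [ev_dif hf, ev_dif hg] with y h1 h2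
  unfold D
  rw [fderiv_fun_add h1 h2]
  rfl

theorem D_sub (hf : ContDiffAt ℝ ∞ f x) (hg : ContDiffAt ℝ ∞ g x) (i : Ix n) :
    D i (fun y => f y - g y) =ᶠ[𝓝 x] fun y => D i f y - D i g y := by
  filter_upwards [ev_dif hf, ev_dif hg] with y h1 h2
  unfold D
  rw [fderiv_fun_sub h1 h2]
  rfl

theorem D_mul (hf : ContDiffAt ℝ ∞ f x) (hg : ContDiffAt ℝ ∞ g x) (i : Ix n) :
    D i (fun y => f y * g y) =ᶠ[𝓝 x] fun y => D i f y * g y + f y * D i g y := by
  filter_upwards [ev_dif hf, ev_dif hg] with y h1 h2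
  unfold D
  rw [fderiv_fun_mul h1 h2]
  simp only [_root_.add_apply, _root_.smul_apply, smul_eq_mul]
  ring

theorem D_clm (L : ℂ →L[ℝ] ℂ) (hf : ContDiffAt ℝ ∞ f x) (i : Ix n) :
    D i (fun y => L (f y)) =ᶠ[𝓝 x] fun y => L (D i f y) := by
  filter_upwards [ev_dif hf] with y h1
  exact congrArg (fun T : E n →L[ℝ] ℂ => T (bs n i)) (L.hasFDerivAt.comp y h1.hasFDerivAt).fderiv

theorem D_sum {σ : Type} (s : Finset σ) {f : σ → E n → ℂ} (hf : ∀ a ∈ s, ContDiffAt ℝ ∞ (f a) x)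
    (i : Ix n) : D i (fun y => ∑ a ∈ s, f a y) =ᶠ[𝓝 x] fun y => ∑ a ∈ s, D i (f a) y := by
  filter_upwards [(eventually_all_finset s).2 fun a ha => ev_dif (hf a ha)] with y h
  unfold D
  rw [fderiv_fun_sum h]
  simp

/-- Chain rule for a holomorphic outer function. -/
theorem D_comp {φ : ℂ → ℂ} {φ' : ℂ} (hφ : HasDerivAt φ φ' (f x)) (hf : DifferentiableAt ℝ f x)
    (i : Ix n) : D i (fun y => φ (f y)) x = φ' * D i f x := by
  have := ((hφ.hasFDerivAt.restrictScalars ℝ).comp x hf.hasFDerivAt).fderiv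
  refine (congrArg (fun L => L (bs n i)) this).trans ?_
  simp [D, mul_comm]

theorem D_comm (hf : ContDiffAt ℝ ∞ f x) (i j : Ix n) : D i (D j f) =ᶠ[𝓝 x] D j (D i f) := by
  filter_upwards [(hf.of_le (WithTop.coe_le_coe.2 (le_top : (2 : ℕ∞) ≤ ⊤))).eventually (by simp)]
    with y h2
  have hs := h2.isSymmSndFDerivAt (by simp)
  have hd : DifferentiableAt ℝ (fderiv ℝ f) y :=
    (h2.fderiv_right (m := 1) (by norm_num)).differentiableAt (by simp)
  have key : ∀ a c, D a (D c f) y = fderiv ℝ (fderiv ℝ f) y (bs n a) (bs n c) := fun a c => by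
    unfold D
    rw [fderiv_clm_apply hd (differentiableAt_const _)]
    simp
  rw [key, key, hs.eq]

end pt

/-! ### Smoothness on a set -/

namespace SmO

variable {S S' : Set (E n)} {f g : E n → ℂ}

theorem mono (h : SmO S f) (hS : S' ⊆ S) : SmO S' f := fun x hx => h x (hS hx)

theorem of_cd (h : ContDiff ℝ ∞ f) (S : Set (E n)) : SmO S f := fun _ _ => h.contDiffAt

theorem cd (h : SmO univ f) : ContDiff ℝ ∞ f := contDiff_iff_contDiffAt.2 fun x => h x trivial

theorem congr (h : SmO S f) (e : ∀ x ∈ S, f =ᶠ[𝓝 x] g) : SmO S g :=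
  fun x hx => (h x hx).congr_of_eventuallyEq (e x hx).symm

theorem const (S : Set (E n)) (c : ℂ) : SmO S fun _ => c := fun _ _ => contDiffAt_const

theorem d (h : SmO S f) (i : Ix n) : SmO S (D i f) := fun x hx => cd_D (h x hx) i

theorem dl (h : SmO S f) (l : List (Ix n)) : SmO S (Dl l f) := fun x hx => cd_Dl l (h x hx)

theorem add (hf : SmO S f) (hg : SmO S g) : SmO S fun x => f x + g x :=
  fun x hx => (hf x hx).add (hg x hx)

theorem sub (hf : SmO S f) (hg : SmO S g) : SmO S fun x => f x - g x :=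
  fun x hx => (hf x hx).sub (hg x hx)

theorem neg (hf : SmO S f) : SmO S fun x => -f x := fun x hx => (hf x hx).neg

theorem mul (hf : SmO S f) (hg : SmO S g) : SmO S fun x => f x * g x :=
  fun x hx => (hf x hx).mul (hg x hx)

theorem clm (L : ℂ →L[ℝ] ℂ) (hf : SmO S f) : SmO S fun x => L (f x) :=
  fun x hx => L.contDiff.contDiffAt.comp x (hf x hx)

theorem sum {σ : Type} (s : Finset σ) {f : σ → E n → ℂ} (hf : ∀ a ∈ s, SmO S (f a)) :
    SmO S fun x => ∑ a ∈ s, f a x := fun x hx => ContDiffAt.sum fun a ha => hf a ha x hx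

theorem diff (hf : SmO S f) {x : E n} (hx : x ∈ S) : DifferentiableAt ℝ f x :=
  (hf x hx).differentiableAt (by simp)

theorem cont (hf : SmO S f) : ContinuousOn f S :=
  fun x hx => (hf x hx).continuousAt.continuousWithinAt

end SmO

/-! ### The classes -/

namespace HO

variable {S S' : Set (E n)} {k : ℕ} {f g : E n → ℂ} {M N : ℝ}

theorem h0 (h : HO k S f M) : Su S f M ∧ Ho S f M := by
  cases k with
  | zero => exact h
  | succ k => exact h.1

theorem su (h : HO k S f M) : Su S f M := h.h0.1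

theorem ho (h : HO k S f M) : Ho S f M := h.h0.2

theorem zero (h : HO k S f M) : HO 0 S f M := h.h0

theorem d (h : HO (k + 1) S f M) (i : Ix n) : HO k S (D i f) M := h.2 i

theorem succ (h0 : HO 0 S f M) (h : ∀ i, HO k S (D i f) M) : HO (k + 1) S f M := ⟨h0, h⟩

theorem nonneg (h : HO k S f M) {x : E n} (hx : x ∈ S) : 0 ≤ M :=
  (norm_nonneg _).trans (h.su x hx)

theorem empty (k : ℕ) : ∀ (f : E n → ℂ) (M : ℝ), HO k ∅ f M := by
  induction k with
  | zero => exact fun f M => ⟨fun _ h => h.elim, fun _ h => h.elim⟩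
  | succ k ih => exact fun f M => ⟨⟨fun _ h => h.elim, fun _ h => h.elim⟩, fun i => ih _ _⟩

/-- On the whole space the classes are those of `HS33.H`. -/
theorem univ_iff : ∀ {f : E n → ℂ}, HO k univ f M ↔ HS33.H (bs n) k f M := by
  have h0 : ∀ {f : E n → ℂ}, Su univ f M ∧ Ho univ f M ↔ HS33.H0 f M := by
    simp [Su, Ho, HS33.H0]
  induction k with
  | zero => exact h0
  | succ k ih => exact and_congr h0 (forall_congr' fun i => ih)

theorem congr : ∀ {f g : E n → ℂ}, HO k S f M → (∀ x ∈ S, f =ᶠ[𝓝 x] g) → HO k S g M := by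
  have h0 : ∀ {f g : E n → ℂ}, Su S f M ∧ Ho S f M → (∀ x ∈ S, f =ᶠ[𝓝 x] g) →
      Su S g M ∧ Ho S g M := fun h e =>
    ⟨fun x hx => (e x hx).eq_of_nhds ▸ h.1 x hx, fun x hx y hy =>
      (e x hx).eq_of_nhds ▸ (e y hy).eq_of_nhds ▸ h.2 x hx y hy⟩
  induction k with
  | zero => exact h0
  | succ k ih => exact fun h e => ⟨h0 h.1 e, fun i => ih (h.2 i) fun x hx => D_congr (e x hx) i⟩

/-- Congruence on an open set that contains `S`. -/
theorem congr_open (h : HO k S f M) {U : Set (E n)} (hU : IsOpen U) (hS : S ⊆ U)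
    (e : ∀ x ∈ U, f x = g x) : HO k S g M :=
  h.congr fun _ hx => (hU.eventually_mem (hS hx)).mono e

theorem mono : ∀ {f : E n → ℂ}, HO k S f M → M ≤ N → HO k S f N := by
  have h0 : ∀ {f : E n → ℂ}, Su S f M ∧ Ho S f M → M ≤ N → Su S f N ∧ Ho S f N := fun h e =>
    ⟨fun x hx => (h.1 x hx).trans e, fun x hx y hy =>
      (h.2 x hx y hy).trans (mul_le_mul_of_nonneg_right e (Real.sqrt_nonneg _))⟩
  induction k with
  | zero => exact h0
  | succ k ih => exact fun h e => ⟨h0 h.1 e, fun i => ih (h.2 i) e⟩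

/-- Monotonicity where the inequality may use that the constant is non-negative. -/
theorem mono' (h : HO k S f M) (e : 0 ≤ M → M ≤ N) : HO k S f N := by
  rcases S.eq_empty_or_nonempty with rfl | ⟨x, hx⟩
  · exact empty _ _ _
  · exact h.mono (e (h.nonneg hx))

theorem subset (hS : S' ⊆ S) : ∀ {f : E n → ℂ}, HO k S f M → HO k S' f M := by
  have h0 : ∀ {f : E n → ℂ}, Su S f M ∧ Ho S f M → Su S' f M ∧ Ho S' f M := fun h =>
    ⟨fun x hx => h.1 x (hS hx), fun x hx y hy => h.2 x (hS hx) y (hS hy)⟩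
  induction k with
  | zero => exact h0
  | succ k ih => exact fun h => ⟨h0 h.1, fun i => ih (h.2 i)⟩

theorem pred : ∀ {f : E n → ℂ}, HO (k + 1) S f M → HO k S f M := by
  induction k with
  | zero => exact fun h => h.1
  | succ k ih => exact fun h => ⟨h.1, fun i => ih (h.2 i)⟩

theorem anti {j : ℕ} (hj : j ≤ k) (h : HO k S f M) : HO j S f M := by
  induction hj with
  | refl => exact h
  | step _ ih => exact ih h.pred

theorem dl (l : List (Ix n)) : ∀ {f : E n → ℂ}, HO (k + l.length) S f M → HO k S (Dl l f) M := by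
  induction l with
  | nil => exact fun h => h
  | cons i l ih => exact fun h => ih (h.2 i)

theorem of_dl : ∀ {f : E n → ℂ}, (∀ l : List (Ix n), l.length ≤ k → HO 0 S (Dl l f) M) →
    HO k S f M := by
  induction k with
  | zero => exact fun h => h [] le_rfl
  | succ k ih =>
    exact fun h => ⟨h [] (Nat.zero_le _), fun i => ih fun l hl => h (i :: l) (by simpa using hl)⟩

theorem const (k : ℕ) (S : Set (E n)) : ∀ (c : ℂ) {M : ℝ}, ‖c‖ ≤ M → HO k S (fun _ => c) M :=
  fun c _ h => subset (subset_univ S) (univ_iff.2 (HS33.H.const k c h))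

theorem add : ∀ {f g : E n → ℂ}, SmO S f → SmO S g → HO k S f M → HO k S g N →
    HO k S (fun x => f x + g x) (M + N) := by
  have h0 : ∀ {f g : E n → ℂ}, Su S f M ∧ Ho S f M → Su S g N ∧ Ho S g N →
      Su S (fun x => f x + g x) (M + N) ∧ Ho S (fun x => f x + g x) (M + N) := fun hf hg =>
    ⟨fun x hx => (norm_add_le _ _).trans (add_le_add (hf.1 x hx) (hg.1 x hx)), fun x hx y hy => by
      rw [add_sub_add_comm, add_mul]
      exact (norm_add_le _ _).trans (add_le_add (hf.2 x hx y hy) (hg.2 x hx y hy))⟩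
  induction k with
  | zero => exact fun _ _ => h0
  | succ k ih =>
    exact fun sf sg hf hg => ⟨h0 hf.1 hg.1, fun i => (ih (sf.d i) (sg.d i) (hf.2 i) (hg.2 i)).congr
      fun x hx => (D_add (sf x hx) (sg x hx) i).symm⟩

theorem clm (L : ℂ →L[ℝ] ℂ) {c : ℝ} (hc : 0 ≤ c) (hL : ∀ u, ‖L u‖ ≤ c * ‖u‖) :
    ∀ {f : E n → ℂ}, SmO S f → HO k S f M → HO k S (fun x => L (f x)) (c * M) := by
  have h0 : ∀ {f : E n → ℂ}, Su S f M ∧ Ho S f M →
      Su S (fun x => L (f x)) (c * M) ∧ Ho S (fun x => L (f x)) (c * M) := fun hf =>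
    ⟨fun x hx => (hL _).trans (mul_le_mul_of_nonneg_left (hf.1 x hx) hc), fun x hx y hy => by
      rw [← map_sub, mul_assoc]
      exact (hL _).trans (mul_le_mul_of_nonneg_left (hf.2 x hx y hy) hc)⟩
  induction k with
  | zero => exact fun _ => h0
  | succ k ih =>
    exact fun sf hf => ⟨h0 hf.1, fun i => (ih (sf.d i) (hf.2 i)).congr
      fun x hx => (D_clm L (sf x hx) i).symm⟩

theorem clm_one (L : ℂ →L[ℝ] ℂ) (hL : ∀ u, ‖L u‖ ≤ ‖u‖) (sf : SmO S f) (hf : HO k S f M) :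
    HO k S (fun x => L (f x)) M := by
  have := clm L zero_le_one (by simpa using hL) sf hf
  rwa [one_mul] at this

theorem neg (sf : SmO S f) (hf : HO k S f M) : HO k S (fun x => -f x) M :=
  clm_one (-ContinuousLinearMap.id ℝ ℂ) (by simp) sf hf

theorem sub (sf : SmO S f) (sg : SmO S g) (hf : HO k S f M) (hg : HO k S g N) :
    HO k S (fun x => f x - g x) (M + N) := by
  simpa only [sub_eq_add_neg] using add sf sg.neg hf (neg sg hg)

theorem const_mul (c : ℂ) (sf : SmO S f) (hf : HO k S f M) :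
    HO k S (fun x => c * f x) (‖c‖ * M) :=
  clm (ContinuousLinearMap.mul ℝ ℂ c) (norm_nonneg c) (fun u => norm_mul_le c u) sf hf

theorem mul_const (c : ℂ) (sf : SmO S f) (hf : HO k S f M) :
    HO k S (fun x => f x * c) (‖c‖ * M) := by
  simpa only [mul_comm] using const_mul c sf hf

theorem star (sf : SmO S f) (hf : HO k S f M) : HO k S (fun x => star (f x)) M :=
  clm_one (conjCLE : ℂ →L[ℝ] ℂ) (fun u => by simp) sf hf

theorem re (sf : SmO S f) (hf : HO k S f M) : HO k S (fun x => ((f x).re : ℂ)) M :=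
  clm_one (ofRealCLM.comp reCLM) (fun u => by simpa using abs_re_le_norm u) sf hf

theorem im (sf : SmO S f) (hf : HO k S f M) : HO k S (fun x => ((f x).im : ℂ)) M :=
  clm_one (ofRealCLM.comp imCLM) (fun u => by simpa using abs_im_le_norm u) sf hf

theorem sum {σ : Type} (s : Finset σ) {f : σ → E n → ℂ} {M : σ → ℝ}
    (sf : ∀ i ∈ s, SmO S (f i)) (hf : ∀ i ∈ s, HO k S (f i) (M i)) :
    HO k S (fun x => ∑ i ∈ s, f i x) (∑ i ∈ s, M i) := by
  induction s using Finset.induction_on with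
  | empty => simpa using const k S 0 (M := 0) (by simp)
  | insert a s ha ih =>
    simp only [Finset.sum_insert ha]
    exact add (sf a (by simp)) (SmO.sum s fun i hi => sf i (by simp [hi])) (hf a (by simp))
      (ih (fun i hi => sf i (by simp [hi])) fun i hi => hf i (by simp [hi]))

/-- A sum over a finite type with the same bound for all terms. -/
theorem sum_card {σ : Type} [Fintype σ] {f : σ → E n → ℂ} (sf : ∀ i, SmO S (f i))
    (hf : ∀ i, HO k S (f i) M) : HO k S (fun x => ∑ i, f i x) (Fintype.card σ * M) := by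
  simpa using sum Finset.univ (fun i _ => sf i) fun i _ => hf i

/-- The product at order zero, with separate constants. -/
theorem mul0 {A B : ℝ} (hA : Su S f A) (hB : Su S g B) (hf : Ho S f M) (hg : Ho S g N) :
    Ho S (fun x => f x * g x) (M * B + A * N) := fun x hx y hy => by
  have e : f x * g x - f y * g y = (f x - f y) * g x + f y * (g x - g y) := by ring
  have h1 := mul_le_mul (hf x hx y hy) (hB x hx) (norm_nonneg _)
    ((norm_nonneg _).trans (hf x hx y hy))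
  have h2 := mul_le_mul (hA y hy) (hg x hx y hy) (norm_nonneg _) ((norm_nonneg _).trans (hA y hy))
  rw [e]
  have := norm_add_le ((f x - f y) * g x) (f y * (g x - g y))
  rw [norm_mul, norm_mul] at this
  linarith

theorem su_mul {A B : ℝ} (hA : Su S f A) (hB : Su S g B) : Su S (fun x => f x * g x) (A * B) :=
  fun x hx => (norm_mul_le _ _).trans
    (mul_le_mul (hA x hx) (hB x hx) (norm_nonneg _) ((norm_nonneg _).trans (hA x hx)))

theorem mul : ∀ {f g : E n → ℂ}, SmO S f → SmO S g → HO k S f M → HO k S g N →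
    HO k S (fun x => f x * g x) (2 ^ (k + 1) * M * N) := by
  rcases S.eq_empty_or_nonempty with rfl | ⟨x₀, hx₀⟩
  · exact fun _ _ _ _ => empty _ _ _
  have h0 : ∀ {f g : E n → ℂ}, HO 0 S f M → HO 0 S g N →
      HO 0 S (fun x => f x * g x) (2 * M * N) := fun hf hg => by
    have := mul_nonneg (hf.nonneg hx₀) (hg.nonneg hx₀)
    refine ⟨fun x hx => (su_mul hf.1 hg.1 x hx).trans (by linarith), ?_⟩
    have := mul0 hf.1 hg.1 hf.2 hg.2
    rwa [show M * N + M * N = 2 * M * N by ring] at this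
  induction k with
  | zero => exact fun _ _ hf hg => (h0 hf hg).mono (le_of_eq (by norm_num))
  | succ k ih =>
    intro f g sf sg hf hg
    have hM := hf.nonneg hx₀
    have hN := hg.nonneg hx₀
    refine succ ((h0 hf.1 hg.1).mono ?_) fun i => ?_
    · have : (2 : ℝ) ≤ 2 ^ (k + 1 + 1) := le_self_pow₀ one_le_two (by omega)
      gcongr
    · refine ((add ((sf.d i).mul sg) (sf.mul (sg.d i)) (ih (sf.d i) sg (hf.2 i) hg.pred)
        (ih sf (sg.d i) hf.pred (hg.2 i))).congr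
        fun x hx => (D_mul (sf x hx) (sg x hx) i).symm).mono (le_of_eq ?_)
      ring

end HO

/-! ### Iterated derivatives, compactness, interpolation -/

theorem ho_of_lip {S : Set (E n)} {f : E n → ℂ} {A L h : ℝ} (hh : 0 < h) (hL0 : 0 ≤ L)
    (hA : Su S f A) (hL : ∀ x ∈ S, ∀ y ∈ S, ‖f x - f y‖ ≤ L * ‖x - y‖) :
    Ho S f (L * h + 2 * A / h) := fun x hx y hy => by
  have hA0 : 0 ≤ A := (norm_nonneg _).trans (hA x hx)
  have hs := Real.sqrt_nonneg ‖x - y‖
  have hq := Real.mul_self_sqrt (norm_nonneg (x - y))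
  have p1 : 0 ≤ L * h * √‖x - y‖ := by positivity
  have p2 : 0 ≤ 2 * A / h * √‖x - y‖ := by positivity
  rw [add_mul]
  rcases le_total (√‖x - y‖) h with c | c
  · have h1 := hL x hx y hy
    have h2 : L * (√‖x - y‖ * √‖x - y‖) ≤ L * (h * √‖x - y‖) := by gcongr
    rw [hq] at h2
    linarith
  · have h1 : 2 * A / h * h ≤ 2 * A / h * √‖x - y‖ := by gcongr
    rw [div_mul_cancel₀ _ hh.ne'] at h1
    linarith [norm_sub_le (f x) (f y), hA x hx, hA y hy]

theorem lip_of_fd {S : Set (E n)} (hS : Convex ℝ S) {f : E n → ℂ} (sf : SmO S f) {L : ℝ}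
    (hL : ∀ x ∈ S, ‖fderiv ℝ f x‖ ≤ L) : ∀ x ∈ S, ∀ y ∈ S, ‖f x - f y‖ ≤ L * ‖x - y‖ :=
  fun _ hx _ hy => hS.norm_image_sub_le_of_norm_fderiv_le (𝕜 := ℝ) (fun _ hz => sf.diff hz) hL hy hx

theorem norm_bs (i : Ix n) : ‖bs n i‖ = 1 := by
  obtain ⟨j, a⟩ := i
  rw [bs, Pi.basis_apply, Pi.norm_single]
  fin_cases a <;> simp

theorem D_le (i : Ix n) (f : E n → ℂ) (x : E n) : ‖D i f x‖ ≤ ‖fderiv ℝ f x‖ := by
  have := HS33.Dv_le (bs n i) f x
  rwa [norm_bs, one_mul] at this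

namespace HO

theorem of_fd {S : Set (E n)} (hS : Convex ℝ S) {f : E n → ℂ} (sf : SmO S f) {A L h : ℝ}
    (hh : 0 < h) (h1 : h ≤ 1) (hA : Su S f A) (hL : ∀ x ∈ S, ‖fderiv ℝ f x‖ ≤ L) :
    HO 0 S f (L * h + 2 * A / h) := by
  rcases S.eq_empty_or_nonempty with rfl | ⟨x₀, hx₀⟩
  · exact empty _ _ _
  have hA0 : 0 ≤ A := (norm_nonneg _).trans (hA x₀ hx₀)
  have hL0 : 0 ≤ L := (norm_nonneg _).trans (hL x₀ hx₀)
  refine ⟨fun x hx => (hA x hx).trans ?_, ho_of_lip hh hL0 hA (lip_of_fd hS sf hL)⟩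
  have h2 : A ≤ 2 * A / h := by
    rw [le_div_iff₀ hh]
    nlinarith
  have : 0 ≤ L * h := by positivity
  linarith

theorem of_iter {S : Set (E n)} (hS : Convex ℝ S) (k : ℕ) {M : ℝ} : ∀ {f : E n → ℂ}, SmO S f →
    (∀ j ≤ k + 1, ∀ x ∈ S, ‖iteratedFDeriv ℝ j f x‖ ≤ M) → HO k S f (3 * M) := by
  have h0 : ∀ {f : E n → ℂ}, SmO S f → (∀ x ∈ S, ‖iteratedFDeriv ℝ 0 f x‖ ≤ M) →
      (∀ x ∈ S, ‖iteratedFDeriv ℝ 1 f x‖ ≤ M) → HO 0 S f (3 * M) := fun sf h1 h2 =>
    (of_fd hS sf one_pos le_rfl (A := M) (L := M) (fun x hx => by simpa using h1 x hx)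
      fun x hx => by simpa [norm_iteratedFDeriv_one] using h2 x hx).mono (le_of_eq (by ring))
  induction k with
  | zero => exact fun sf h => h0 sf (h 0 (by omega)) (h 1 (by omega))
  | succ k ih =>
    intro f sf h
    refine succ (h0 sf (h 0 (by omega)) (h 1 (by omega))) fun i =>
      ih (sf.d i) fun j hj x hx => ?_
    refine (norm_iteratedFDeriv_clm_apply_const ((sf x hx).fderiv_right (m := ∞) (by simp))
      (WithTop.coe_le_coe.2 le_top)).trans ?_
    rw [norm_iteratedFDeriv_fderiv, norm_bs, one_mul]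
    exact h _ (by omega) x hx

variable (n) in
/-- The iterated derivative is bounded by the words of coordinate derivatives. -/
theorem iter_pt (k : ℕ) : ∃ C, 0 < C ∧ ∀ (f : E n → ℂ) (M : ℝ) (x : E n), ContDiffAt ℝ ∞ f x →
    (∀ l : List (Ix n), l.length = k → ‖Dl l f x‖ ≤ M) → 0 ≤ M →
      ‖iteratedFDeriv ℝ k f x‖ ≤ C * M := by
  induction k with
  | zero => exact ⟨1, one_pos, fun f M x _ h _ => by simpa [Dl] using h [] rfl⟩
  | succ k ih =>
    obtain ⟨C, hC, ih⟩ := ih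
    let L : Ix n → ℂ →L[ℝ] E n →L[ℝ] ℂ := fun i => ContinuousLinearMap.smulRightL ℝ (E n) ℂ
      (LinearMap.toContinuousLinearMap ((bs n).coord i))
    refine ⟨1 + ∑ i, ‖L i‖ * C, by positivity, fun f M x sf h hM => ?_⟩
    have hs : ∀ i, ContDiffAt ℝ k (fun x => L i (HS33.Dv (bs n i) f x)) x := fun i =>
      ((L i).contDiff.contDiffAt.comp x (cd_D sf i)).of_le (WithTop.coe_le_coe.2 le_top)
    rw [← norm_iteratedFDeriv_fderiv, HS33.fderiv_eq_sum (bs n) f,
      iteratedFDeriv_fun_sum_apply fun i _ => hs i, add_mul, Finset.sum_mul]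
    refine (norm_sum_le _ _).trans ((Finset.sum_le_sum fun i _ => ?_).trans
      (le_add_of_nonneg_left (by linarith)))
    refine ((L i).norm_iteratedFDeriv_comp_left (cd_D sf i)
      (WithTop.coe_le_coe.2 le_top)).trans ?_
    rw [mul_assoc]
    exact mul_le_mul_of_nonneg_left
      (ih _ M x (cd_D sf i) (fun l hl => h (i :: l) (by simpa using hl)) hM) (norm_nonneg _)

variable (n) in
theorem iter (k : ℕ) : ∃ C, 0 < C ∧ ∀ (S : Set (E n)) (f : E n → ℂ) (M : ℝ), SmO S f →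
    HO k S f M → ∀ x ∈ S, ‖iteratedFDeriv ℝ k f x‖ ≤ C * M := by
  obtain ⟨C, hC, h⟩ := iter_pt n k
  exact ⟨C, hC, fun S f M sf hf x hx => h f M x (sf x hx)
    (fun l hl => (dl (k := 0) l (by rwa [zero_add, hl])).su x hx) (hf.nonneg hx)⟩

variable (n) in
theorem fd_le : ∃ C, 0 < C ∧ ∀ (f : E n → ℂ) (M : ℝ) (x : E n), 0 ≤ M →
    (∀ i, ‖D i f x‖ ≤ M) → ‖fderiv ℝ f x‖ ≤ C * M := by
  obtain ⟨C, hC, h⟩ := (bs n).exists_opNorm_le (F := ℂ)
  exact ⟨C, hC, fun f M x hM hf => h hM hf⟩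

/-- A function that is smooth at the points of a compact set is in all classes. -/
theorem of_compact {S : Set (E n)} (hS : IsCompact S) (k : ℕ) : ∀ {f : E n → ℂ}, SmO S f →
    ∃ M, 0 < M ∧ HO k S f M := by
  have h0 : ∀ {f : E n → ℂ}, SmO S f → ∃ M, 0 < M ∧ HO 0 S f M := fun {f} sf => by
    obtain ⟨A, hA⟩ := hS.exists_bound_of_continuousOn sf.cont
    have hl : LocallyLipschitzOn S f := fun x hx => by
      obtain ⟨K, t, ht, h⟩ := ((sf x hx).of_le
        (WithTop.coe_le_coe.2 (le_top : (1 : ℕ∞) ≤ ⊤))).exists_lipschitzOnWith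
      exact ⟨K, t, mem_nhdsWithin_of_mem_nhds ht, h⟩
    obtain ⟨K, hK⟩ := hl.exists_lipschitzOnWith_of_compact hS
    have hA' : Su S f |A| := fun x hx => (hA x hx).trans (le_abs_self A)
    have h1 := ho_of_lip (L := K) one_pos K.2 hA' fun x hx y hy => by
      rw [← dist_eq_norm, ← dist_eq_norm]
      exact hK.dist_le_mul x hx y hy
    have hK0 : (0 : ℝ) ≤ K := K.2
    have := abs_nonneg A
    refine ⟨K * 1 + 2 * |A| / 1 + 1, by positivity, fun x hx => (hA' x hx).trans (by linarith),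
      fun x hx y hy => (h1 x hx y hy).trans ?_⟩
    exact mul_le_mul_of_nonneg_right (le_add_of_nonneg_right zero_le_one) (Real.sqrt_nonneg _)
  induction k with
  | zero => exact h0
  | succ k ih =>
    intro f sf
    obtain ⟨A, hA, h⟩ := h0 sf
    choose B hB hB' using fun i => ih (sf.d i)
    have hs : 0 ≤ ∑ i, B i := Finset.sum_nonneg fun i _ => (hB i).le
    refine ⟨A + ∑ i, B i, by positivity, succ (h.mono (by linarith)) fun i => (hB' i).mono ?_⟩
    linarith [Finset.single_le_sum (fun i _ => (hB i).le) (Finset.mem_univ i)]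

end HO

/-- The inequality of Landau up to the boundary of a ball. -/
theorem landau_ball {c : E n} {r : ℝ} {f : E n → ℂ} (sf : SmO (closedBall c r) f) {A C h : ℝ}
    (hh : 0 < h) (hr : h ≤ r) (hA : Su (closedBall c r) f A)
    (hC : ∀ z ∈ closedBall c r, ‖iteratedFDeriv ℝ 2 f z‖ ≤ C) {x : E n}
    (hx : x ∈ closedBall c r) : ‖fderiv ℝ f x‖ ≤ 4 * A / h + 2 * C * h := by
  have hr0 : 0 < r := hh.trans_le hr
  have hC0 : 0 ≤ C := (norm_nonneg _).trans (hC x hx)
  have hxc : ‖x - c‖ ≤ r := by rwa [mem_closedBall, dist_eq_norm] at hx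
  have hq : 0 ≤ h / r := by positivity
  have hq1 : h / r ≤ 1 := (div_le_one hr0).2 hr
  have e0 : h / r * r = h := div_mul_cancel₀ _ hr0.ne'
  set y := x - (h / r) • (x - c) with hy
  have h1 : ‖y - c‖ ≤ r - h := by
    have : y - c = (1 - h / r) • (x - c) := by rw [hy, sub_smul, one_smul]; abel
    rw [this, norm_smul, Real.norm_of_nonneg (by linarith)]
    nlinarith
  have h2 : ‖x - y‖ ≤ h := by
    rw [hy, sub_sub_cancel, norm_smul, Real.norm_of_nonneg hq]
    nlinarith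
  have hyS : y ∈ closedBall c r := by rw [mem_closedBall, dist_eq_norm]; linarith
  have hs : closedBall y (h / 2) ⊆ ball c r :=
    closedBall_subset_ball' (by rw [dist_eq_norm]; linarith)
  have h3 := HS33.fderiv_le isOpen_ball
    (fun z hz => (sf z (ball_subset_closedBall hz)).contDiffWithinAt) (half_pos hh) hs
    (fun z hz => hA z (ball_subset_closedBall (hs hz))) fun z hz => hC z (ball_subset_closedBall (hs hz))
  have h4 := (convex_closedBall c r).norm_image_sub_le_of_norm_fderiv_le (𝕜 := ℝ)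
    (f := fderiv ℝ f) (C := C)
    (fun w hw => ((sf w hw).fderiv_right (m := ∞) (by simp)).differentiableAt (by simp))
    (fun w hw => by
      have := hC w hw
      rwa [← norm_iteratedFDeriv_fderiv, norm_iteratedFDeriv_one] at this) hyS hx
  have h5 := norm_le_norm_add_norm_sub' (fderiv ℝ f x) (fderiv ℝ f y)
  have h6 : 2 * A / (h / 2) = 4 * A / h := by field_simp; ring
  have h7 := mul_le_mul_of_nonneg_left h2 hC0
  have h8 : 0 ≤ C * h := by positivity
  linarith

variable (n) in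
/-- Interpolation on closed balls. -/
theorem HO.intp (k : ℕ) {r : ℝ} (hr : 0 < r) : ∀ ε : ℝ, 0 < ε → ∃ C, 0 < C ∧
    ∀ (c : E n) (f : E n → ℂ) (M A : ℝ), SmO (closedBall c r) f → HO (k + 1) (closedBall c r) f M →
      Su (closedBall c r) f A → HO k (closedBall c r) f (ε * M + C * A) := by
  have h0 : ∀ ε : ℝ, 0 < ε → ∃ C, 0 < C ∧ ∀ (c : E n) (f : E n → ℂ) (M A : ℝ),
      SmO (closedBall c r) f → HO 1 (closedBall c r) f M → Su (closedBall c r) f A →
        HO 0 (closedBall c r) f (ε * M + C * A) := fun ε hε => by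
    obtain ⟨C, hC, h⟩ := HO.fd_le n
    have hh : 0 < min 1 (ε / C) := by positivity
    refine ⟨2 / min 1 (ε / C), by positivity, fun c f M A sf hf hA => ?_⟩
    have hM := hf.nonneg (mem_closedBall_self hr.le)
    refine (HO.of_fd (convex_closedBall c r) sf hh (min_le_left _ _) hA
      fun x hx => h f M x hM fun i => (hf.d i).su x hx).mono ?_
    have h1 : C * M * min 1 (ε / C) ≤ C * M * (ε / C) :=
      mul_le_mul_of_nonneg_left (min_le_right _ _) (mul_nonneg hC.le hM)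
    have h2 : C * M * (ε / C) = ε * M := by field_simp
    have h3 : 2 * A / min 1 (ε / C) = 2 / min 1 (ε / C) * A := by ring
    linarith
  induction k with
  | zero => exact h0
  | succ k ih =>
    intro ε hε
    obtain ⟨C0, hC0, h0⟩ := h0 ε hε
    obtain ⟨C1, hC1, ih⟩ := ih (ε / 2) (by positivity)
    obtain ⟨C2, hC2, h2⟩ := HO.iter n 2
    obtain ⟨h, hh, hhr, e⟩ : ∃ h : ℝ, 0 < h ∧ h ≤ r ∧ C1 * 2 * C2 * h ≤ ε / 2 := by
      refine ⟨min r (ε / 2 / (C1 * 2 * C2)), by positivity, min_le_left _ _, ?_⟩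
      rw [mul_comm, ← le_div_iff₀ (by positivity)]
      exact min_le_right _ _
    refine ⟨C0 + C1 * 4 / h, by positivity, fun c f M A sf hf hA => ?_⟩
    have hA0 : 0 ≤ A := (norm_nonneg _).trans (hA c (mem_closedBall_self hr.le))
    have hM := hf.nonneg (mem_closedBall_self hr.le)
    have p1 : 0 ≤ C1 * 4 / h * A := by positivity
    have p2 : 0 ≤ C0 * A := by positivity
    refine HO.succ ((h0 c f M A sf (hf.anti (by omega)) hA).mono (by linarith)) fun i => ?_
    refine (ih c _ M (4 * A / h + 2 * (C2 * M) * h) (sf.d i) (hf.d i) fun x hx =>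
      (D_le _ _ _).trans (landau_ball sf hh hhr hA (h2 _ f M sf (hf.anti (by omega))) hx)).mono ?_
    have : C1 * (4 * A / h + 2 * (C2 * M) * h) = C1 * 4 / h * A + C1 * 2 * C2 * h * M := by ring
    have := mul_le_mul_of_nonneg_right e hM
    linarith

variable (n) in
/-- Interpolation on the whole space. -/
theorem HO.intp_univ (k : ℕ) (ε : ℝ) (hε : 0 < ε) : ∃ C, 0 < C ∧ ∀ (f : E n → ℂ) (M A : ℝ),
    ContDiff ℝ ∞ f → HO (k + 1) univ f M → Su univ f A → HO k univ f (ε * M + C * A) := by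
  obtain ⟨C, hC, h⟩ := HS33.H.intp (F := ℂ) (bs n) k ε hε
  exact ⟨C, hC, fun f M A sf hf hA =>
    HO.univ_iff.2 (h f M A sf (HO.univ_iff.1 hf) fun x => hA x trivial)⟩

/-! ### Limits -/

section lim

variable {α : Type} {l : Filter α} [l.NeBot] {U : Set (E n)}

theorem lim_D (hU : IsOpen U) {f : α → E n → ℂ} {g : E n → ℂ} (sf : ∀ᶠ m in l, SmO U (f m))
    (hb : ∃ M, ∀ᶠ m in l, HO 2 U (f m) M) (hg : ∀ x ∈ U, Tendsto (fun m => f m x) l (𝓝 (g x)))
    (i : Ix n) : ∀ x ∈ U, Tendsto (fun m => D i (f m) x) l (𝓝 (D i g x)) := fun x hx => by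
  obtain ⟨C, -, h⟩ := HO.iter n 2
  obtain ⟨M, hM⟩ := hb
  exact ((ContinuousLinearMap.apply ℝ ℂ (bs n i)).continuous.tendsto _).comp
    (HS33.lim_step hU (sf.mono fun _ h z hz => (h z hz).contDiffWithinAt) (C := C * M)
      ((sf.and hM).mono fun m hm => h U _ M hm.1 hm.2) hg hx).2

theorem lim_smO (hU : IsOpen U) {f : α → E n → ℂ} {g : E n → ℂ} (sf : ∀ᶠ m in l, SmO U (f m))
    (hb : ∀ k, ∃ M, ∀ᶠ m in l, HO k U (f m) M)
    (hg : ∀ x ∈ U, Tendsto (fun m => f m x) l (𝓝 (g x))) : SmO U g := fun x hx => by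
  refine ((HS33.lim_smooth hU (sf.mono fun _ h z hz => (h z hz).contDiffWithinAt) (fun j => ?_)
    hg).1 x hx).contDiffAt (hU.mem_nhds hx)
  obtain ⟨C, -, h⟩ := HO.iter n j
  obtain ⟨M, hM⟩ := hb j
  exact ⟨C * M, (sf.and hM).mono fun m hm => h U _ M hm.1 hm.2⟩

theorem lim_Dl (hU : IsOpen U) (w : List (Ix n)) : ∀ {f : α → E n → ℂ} {g : E n → ℂ},
    (∀ᶠ m in l, SmO U (f m)) → (∀ k, ∃ M, ∀ᶠ m in l, HO k U (f m) M) →
    (∀ x ∈ U, Tendsto (fun m => f m x) l (𝓝 (g x))) →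
    ∀ x ∈ U, Tendsto (fun m => Dl w (f m) x) l (𝓝 (Dl w g x)) := by
  induction w with
  | nil => exact fun _ _ hg => hg
  | cons i w ih =>
    intro f g sf hb hg
    refine ih (f := fun m => D i (f m)) (sf.mono fun m h => h.d i) (fun k => ?_)
      (lim_D hU sf (hb 2) hg i)
    obtain ⟨N, hN⟩ := hb (k + 1)
    exact ⟨N, hN.mono fun m h => h.d i⟩

omit [l.NeBot] in
theorem HO.lim0 [l.NeBot] {S : Set (E n)} {f : α → E n → ℂ} {g : E n → ℂ} {M : ℝ}
    (hg : ∀ x ∈ S, Tendsto (fun m => f m x) l (𝓝 (g x))) (hM : ∀ᶠ m in l, HO 0 S (f m) M) :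
    HO 0 S g M :=
  ⟨fun x hx => le_of_tendsto (hg x hx).norm (hM.mono fun _ h => h.1 x hx), fun x hx y hy =>
    le_of_tendsto ((hg x hx).sub (hg y hy)).norm (hM.mono fun _ h => h.2 x hx y hy)⟩

/-- The bounds pass to the limit when all derivatives converge. -/
theorem HO.lim_of_Dl {S : Set (E n)} {f : α → E n → ℂ} {g : E n → ℂ} {M : ℝ} {k : ℕ}
    (hg : ∀ w, ∀ x ∈ S, Tendsto (fun m => Dl w (f m) x) l (𝓝 (Dl w g x)))
    (hM : ∀ᶠ m in l, HO k S (f m) M) : HO k S g M :=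
  HO.of_dl fun w hw => HO.lim0 (hg w) (hM.mono fun _ h => HO.dl w (h.anti (by omega)))

theorem HO.lim (hU : IsOpen U) {f : α → E n → ℂ} {g : E n → ℂ} (sf : ∀ᶠ m in l, SmO U (f m))
    (hb : ∀ k, ∃ M, ∀ᶠ m in l, HO k U (f m) M)
    (hg : ∀ x ∈ U, Tendsto (fun m => f m x) l (𝓝 (g x))) {S : Set (E n)} (hS : S ⊆ U) {k : ℕ}
    {M : ℝ} (hM : ∀ᶠ m in l, HO k S (f m) M) : HO k S g M :=
  HO.lim_of_Dl (fun w x hx => lim_Dl hU w sf hb hg x (hS hx)) hM

end lim

end Pool.Agent.Lib.HS21
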