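import Pool.Agent.Lib.HS.Blue
import Pool.Agent.Lib.HS32.MKit
import Pool.Agent.Lib.HS68.Fun

/-! The metric scaled in the flat directions. -/

open scoped Classical Topology ContDiff ComplexOrder Matrix
open Set Complex Filter Matrix

noncomputable section

namespace Pool.Agent.Lib.HS33

open Pool.Agent.Lib.SV (E)
open Pool.Agent.Lib.HS32 Pool.Agent.Lib.HS32.Mf Pool.Agent.Lib.HS68

theorem st_HE : HS.St_HE := by
  intro n M H P k hH hs hF
  have hM := hH.toMet
  have ad : M.All fun e z => (P e z)ᴴ * H e z = H e z * P e z := fun e he z hz => by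
    have := (hF.clo.herm e he z hz).eq
    simp only [Pi.mul_apply, conjTranspose_mul, (hM.herm e he z hz).eq] at this
    exact this
  have p1 : M.All fun e z => (H e z * P e z).PosSemidef := fun e he z hz => by
    have := (hM.pos e he z hz).posSemidef.conjTranspose_mul_mul_same (P e z)
    rwa [ad e he z hz, Matrix.mul_assoc, hF.idem e he z hz] at this
  have p2 : M.All fun e z => (H e z - H e z * P e z).PosSemidef := fun e he z hz => by
    have := (hM.pos e he z hz).posSemidef.conjTranspose_mul_mul_same (1 - P e z)
    rwa [conjTranspose_sub, conjTranspose_one, Matrix.sub_mul, Matrix.one_mul, ad e he z hz,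
      Matrix.mul_sub, Matrix.mul_one, Matrix.sub_mul, Matrix.mul_assoc, hF.idem e he z hz,
      sub_self, sub_zero] at this
  have c2 : M.Clo (H - H * P) := hH.toClo.sub hF.clo
  refine ⟨fun e he z hz => by simpa using p1 e he z hz, c2,
    fun e he z hz => by simpa using p2 e he z hz, fun e he z hz => ?_, fun ε hε => ?_⟩
  · have hL := met_loc hM he hz
    have hK := clo_kl hH.toClo he hz
    ext l j
    have e1 : ∀ a, M.ric H e z l a = ∑ m, th (H e) m l z m a := fun a =>
      (hL.ric_apply l a).trans (Finset.sum_congr rfl fun m _ => hL.th_symm hK m m a l)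
    simp only [Matrix.mul_apply, e1, Finset.sum_mul, Matrix.zero_apply]
    rw [Finset.sum_comm]
    exact Finset.sum_eq_zero fun m _ => congrFun (congrFun (hF.flat e he z hz m l) m) j
  have c3 : M.Clo (H - H * P + ε • (H * P)) := c2.add (hF.clo.smul ε)
  have hm : 0 < min ε 1 := lt_min hε one_pos
  have m3 : M.Met (H - H * P + ε • (H * P)) := (hM.smul hm).of_le c3.toForm fun e he z hz => by
    have := (psd_rsmul (p2 e he z hz) (sub_nonneg.2 (min_le_right ε 1))).add
      (psd_rsmul (p1 e he z hz) (sub_nonneg.2 (min_le_left ε 1)))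
    have e1 : (H - H * P + ε • (H * P)) e z - (min ε 1 • H) e z =
        (1 - min ε 1) • (H e z - H e z * P e z) + (ε - min ε 1) • (H e z * P e z) := by
      simp only [Pi.add_apply, Pi.sub_apply, Pi.mul_apply, Pi.smul_apply]
      module
    rwa [← e1] at this
  refine ⟨{ c3, m3 with }, fun e he z hz v => ?_⟩
  have g : ∀ a, ∀ w ∈ e.target, gam ((H - H * P + ε • (H * P)) e) a w = gam (H e) a w :=
    fun a w hw => by
      have s1 : SmM (H e) w := hM.sm e he w hw
      have s2 := s1.mul (hF.en.sm e he w hw)
      have e1 : dM a ((H - H * P + ε • (H * P)) e) w =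
          (H - H * P + ε • (H * P)) e w * gam (H e) a w := by
        have e2 := dM_add (k := a) (s1.sub s2) (s2.rsmul (contDiffAt_const (c := ε)))
        rw [dM_sub s1 s2, dM_rsmul ε s2, dM_mul s1 (hF.en.sm e he w hw), hF.par e he w hw a,
          (met_loc hM he hw).dM_eq a] at e2
        refine e2.trans ?_
        simp only [Pi.add_apply, Pi.sub_apply, Pi.mul_apply, Pi.smul_apply, Matrix.add_mul,
          Matrix.sub_mul, Matrix.smul_mul, Matrix.mul_sub, Matrix.mul_assoc]
        module
      rw [gam, e1, ← Matrix.mul_assoc, nonsing_inv_mul _ (Ne.isUnit (m3.det_ne e he w hw)),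
        Matrix.one_mul]
  have t : ∀ a b, (H - H * P + ε • (H * P)) e z * th ((H - H * P + ε • (H * P)) e) a b z =
      H e z * th (H e) a b z := fun a b => by
    have e1 : th ((H - H * P + ε • (H * P)) e) a b z = th (H e) a b z := by
      rw [th, th, dMb_congr ((e.open_target.eventually_mem hz).mono (g a))]
    have e2 : H e z * P e z * th (H e) a b z = 0 := by
      rw [← ad e he z hz, Matrix.mul_assoc, ← (met_loc hM he hz).mul_th_herm b a,
        ← conjTranspose_mul, Matrix.mul_assoc, hF.flat e he z hz, Matrix.mul_zero,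
        conjTranspose_zero]
    rw [e1]
    simp only [Pi.add_apply, Pi.sub_apply, Pi.mul_apply, Pi.smul_apply, Matrix.add_mul,
      Matrix.sub_mul, Matrix.smul_mul, e2, sub_zero, smul_zero, add_zero]
  simpa only [rm, t] using hs e he z hz v

end Pool.Agent.Lib.HS33
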