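import Pool.Agent.Lib.HS32.MKit
import Pool.Agent.Lib.HS32.B_COV

/-! A space with a finite covering and cut-off functions is compact and Hausdorff; extension by
zero without connectedness. -/

open scoped Classical Topology ContDiff Matrix
open Set Complex Metric Filter

noncomputable section

namespace Pool.Agent.Lib.HS32

open Pool.Agent.Lib.SV (E)

namespace CovT

variable {n : ℕ} {M : Mf n}

theorem t2 (V : M.Cov) : T2Space M.X := by
  refine ⟨fun x y hxy => ?_⟩
  obtain ⟨a, hx, -, h0⟩ := V.cov x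
  by_cases h : V.χ a x = V.χ a y
  · have hy := (V.supp a y (h ▸ h0.ne')).1
    have hne : V.e a x ≠ V.e a y := fun e => hxy ((V.e a).injOn hx hy e)
    obtain ⟨u, v, hu, hv, h1, h2, hd⟩ := t2_separation hne
    refine ⟨(V.e a).source ∩ V.e a ⁻¹' u, (V.e a).source ∩ V.e a ⁻¹' v,
      (V.e a).isOpen_inter_preimage hu, (V.e a).isOpen_inter_preimage hv, ⟨hx, h1⟩, ⟨hy, h2⟩, ?_⟩
    exact Set.disjoint_left.2 fun z h3 h4 => Set.disjoint_left.1 hd h3.2 h4.2
  · exact separated_by_continuous (V.sm a).continuous h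

theorem cpt (V : M.Cov) : CompactSpace M.X := by
  refine ⟨(isCompact_iUnion fun a => (isCompact_closedBall (V.c a) (4 * V.ρ a)).image_of_continuousOn
    ((V.e a).continuousOn_symm.mono (V.sub a))).of_isClosed_subset isClosed_univ fun x _ => ?_⟩
  obtain ⟨a, hx, h1, -⟩ := V.cov x
  exact mem_iUnion.2 ⟨a, _, ball_subset_closedBall.trans
    (closedBall_subset_closedBall (by linarith [V.pos a])) h1, (V.e a).left_inv hx⟩

theorem closed_img (V : M.Cov) (e : M.Ch) {K : Set (E n)} (hK : IsCompact K)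
    (hs : K ⊆ e.target) : IsClosed (e.symm '' K) :=
  haveI := t2 V
  (hK.image_of_continuousOn (e.continuousOn_symm.mono hs)).isClosed

theorem ev_off (V : M.Cov) (e e' : M.Ch) {K : Set (E n)} (hK : IsCompact K) (hs : K ⊆ e.target)
    {z : E n} (hz : z ∈ e'.target) (hx : e'.symm z ∉ e.symm '' K) :
    ∀ᶠ w in 𝓝 z, e'.symm w ∉ e.symm '' K :=
  (e'.continuousAt_symm hz).eventually ((closed_img V e hK hs).isOpen_compl.mem_nhds hx)

/-- The section with the coefficient `g` in the chart `e`, zero outside of the chart. -/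
def ext (m : ℕ) (e : M.Ch) (g : E n → ℂ) : M.Fam ℂ := fun e' z =>
  if e'.symm z ∈ e.source then g (e (e'.symm z)) * (M.J e e' (e'.symm z)).det ^ m else 0

theorem ext_add (m : ℕ) (e : M.Ch) (g g' : E n → ℂ) :
    ext m e (fun z => g z + g' z) = ext m e g + ext m e g' := by
  funext e' z
  simp only [ext, Pi.add_apply]
  split_ifs
  · ring
  · simp

theorem ext_off {m : ℕ} {e : M.Ch} {K : Set (E n)} {g : E n → ℂ}
    (h0 : ∀ z ∈ e.target, z ∉ K → g z = 0) (e' : M.Ch) (z : E n) (h : e'.symm z ∉ e.symm '' K) :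
    ext m e g e' z = 0 := by
  by_cases h2 : e'.symm z ∈ e.source
  · simp only [ext, if_pos h2]
    rw [h0 _ (e.map_source h2) (BCOV.not_mem_of M e K _ h2 h), zero_mul]
  · simp only [ext, if_neg h2]

theorem ext_self (hTR : St_TR) (m : ℕ) {e : M.Ch} (he : e ∈ M.C) (g : E n → ℂ) {z : E n}
    (hz : z ∈ e.target) : ext m e g e z = g z := by
  simp only [ext, if_pos (e.map_target hz), e.right_inv hz]
  rw [(hTR n M).2.2.1 e he _ (e.map_target hz), Matrix.det_one, one_pow, mul_one]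

theorem ext_sec (hCHN : St_CHN) (hTR : St_TR) (V : M.Cov) (m : ℕ) {e : M.Ch} (he : e ∈ M.C)
    {K : Set (E n)} {g : E n → ℂ} (hK : IsCompact K) (hs : K ⊆ e.target)
    (hg : ∀ z ∈ e.target, ContDiffAt ℝ ∞ g z) (h0 : ∀ z ∈ e.target, z ∉ K → g z = 0) :
    M.Sec m (ext m e g) := by
  obtain ⟨-, hov, -⟩ := hTR n M
  refine ⟨fun e' he' z hz' => ?_, fun e' he' e'' he'' x hx' hx'' => ?_⟩
  · by_cases hx : e'.symm z ∈ e.source
    · obtain ⟨hh, -, -, hev, -⟩ := hov e he e' he' _ hx (e'.map_target hz')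
      rw [e'.right_inv hz'] at hh hev
      obtain ⟨h1, h2, -⟩ := hCHN n _ z hh
      have h3 : ContDiffAt ℝ ∞ (fun w => g ((e ∘ e'.symm) w) * (jm (e ∘ e'.symm) w).det ^ m) z :=
        (ContDiffAt.comp z (hg _ (e.map_source hx)) h1).mul ((BCOV.det_sm _ z h2).pow m)
      refine h3.congr_of_eventuallyEq ?_
      filter_upwards [hev] with w hw
      simp only [ext, if_pos hw.2.1, hw.2.2.2.2.2.2, Function.comp_apply]
    · refine (contDiffAt_const (c := (0 : ℂ))).congr_of_eventuallyEq ?_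
      filter_upwards [ev_off V e e' hK hs hz' fun h => hx (BCOV.src_of M e K hs _ h)] with w hw
      exact ext_off h0 e' w hw
  · simp only [ext, e'.left_inv hx', e''.left_inv hx'']
    by_cases hx : x ∈ e.source
    · rw [if_pos hx, if_pos hx, (hov e he e' he' x hx hx').2.2.2.2 e'' he'' hx'', Matrix.det_mul,
        mul_pow, mul_assoc]
    · rw [if_neg hx, if_neg hx, zero_mul]

/-- The clause of `St_COV` on sections, without connectedness. -/
theorem sect (hCHN : St_CHN) (hTR : St_TR) (V : M.Cov) (e : M.Ch) (he : e ∈ M.C) (m : ℕ)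
    (K : Set (E n)) (g : E n → ℂ) (hK : IsCompact K) (hs : K ⊆ e.target)
    (hg : ∀ z ∈ e.target, ContDiffAt ℝ ∞ g z) (h0 : ∀ z ∈ e.target, z ∉ K → g z = 0) :
    ∃ s, M.Sec m s ∧ (∀ z ∈ e.target, s e z = g z) ∧
      M.All fun e' z => e'.symm z ∉ e.symm '' K → s e' z = 0 :=
  ⟨_, ext_sec hCHN hTR V m he hK hs hg h0, fun _ hz => ext_self hTR m he g hz,
    fun e' _ z _ h => ext_off h0 e' z h⟩

end CovT

end Pool.Agent.Lib.HS32
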