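import Mathlib

/-! Smooth limits: pointwise convergence and bounds on all derivatives give a smooth limit and the
convergence of all derivatives. -/

open scoped ContDiff Topology
open Set Filter Metric

noncomputable section

namespace Pool.Agent.Lib.HS33

variable {E : Type} [NormedAddCommGroup E] [NormedSpace ℝ E]

section one

variable {F : Type} [NormedAddCommGroup F] [NormedSpace ℝ F]

theorem diffAt_of {U : Set E} (hU : IsOpen U) {f : E → F} (hf : ContDiffOn ℝ ∞ f U) {x : E}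
    (hx : x ∈ U) : DifferentiableAt ℝ f x :=
  (hf.contDiffAt (hU.mem_nhds hx)).differentiableAt (by simp)

theorem smooth_fderiv {U : Set E} (hU : IsOpen U) {f : E → F} (hf : ContDiffOn ℝ ∞ f U) :
    ContDiffOn ℝ ∞ (fderiv ℝ f) U :=
  hf.fderiv_of_isOpen hU (by simp)

/-- Taylor inequality of order two on a ball. -/
theorem taylor {U : Set E} (hU : IsOpen U) {f : E → F} (hf : ContDiffOn ℝ ∞ f U) {C : ℝ}
    {x y : E} (hs : closedBall x ‖y - x‖ ⊆ U)
    (hC : ∀ z ∈ closedBall x ‖y - x‖, ‖iteratedFDeriv ℝ 2 f z‖ ≤ C) :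
    ‖f y - f x - fderiv ℝ f x (y - x)‖ ≤ C * ‖y - x‖ * ‖y - x‖ := by
  have hx : x ∈ closedBall x ‖y - x‖ := mem_closedBall_self (norm_nonneg _)
  have hy : y ∈ closedBall x ‖y - x‖ := by rw [mem_closedBall, dist_eq_norm]
  have hC0 : 0 ≤ C := (norm_nonneg _).trans (hC x hx)
  refine (convex_closedBall x _).norm_image_sub_le_of_norm_hasFDerivWithin_le'
    (f' := fderiv ℝ f) (fun z hz => (diffAt_of hU hf (hs hz)).hasFDerivAt.hasFDerivWithinAt)
    (fun z hz => ?_) hx hy
  have h1 := (convex_closedBall x ‖y - x‖).norm_image_sub_le_of_norm_fderiv_le (𝕜 := ℝ)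
    (f := fderiv ℝ f) (C := C) (fun w hw => diffAt_of hU (smooth_fderiv hU hf) (hs hw))
    (fun w hw => by
      have := hC w hw
      rwa [← norm_iteratedFDeriv_fderiv, norm_iteratedFDeriv_one] at this) hx hz
  refine h1.trans (mul_le_mul_of_nonneg_left ?_ hC0)
  rwa [mem_closedBall, dist_eq_norm] at hz

/-- Interpolation: the first derivative is controlled by the function and the second one. -/
theorem fderiv_le {U : Set E} (hU : IsOpen U) {f : E → F} (hf : ContDiffOn ℝ ∞ f U) {A C h : ℝ}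
    (hh : 0 < h) {x : E} (hs : closedBall x h ⊆ U) (hA : ∀ z ∈ closedBall x h, ‖f z‖ ≤ A)
    (hC : ∀ z ∈ closedBall x h, ‖iteratedFDeriv ℝ 2 f z‖ ≤ C) :
    ‖fderiv ℝ f x‖ ≤ 2 * A / h + C * h := by
  have hx : x ∈ closedBall x h := mem_closedBall_self hh.le
  have hC0 : 0 ≤ C := (norm_nonneg _).trans (hC x hx)
  have hA0 : 0 ≤ A := (norm_nonneg _).trans (hA x hx)
  refine ContinuousLinearMap.opNorm_le_of_unit_norm (by positivity) fun v hv => ?_
  have hn : ‖x + h • v - x‖ = h := by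
    rw [add_sub_cancel_left, norm_smul, hv, mul_one, Real.norm_of_nonneg hh.le]
  have h1 := taylor hU hf (x := x) (y := x + h • v) (C := C) (by rwa [hn]) (by rwa [hn])
  rw [hn, add_sub_cancel_left, map_smul] at h1
  have h2 := hA (x + h • v) (by rw [mem_closedBall, dist_eq_norm, hn])
  have h3 := hA x hx
  have h4 : ‖h • fderiv ℝ f x v‖ ≤ 2 * A + C * h * h := by
    have := norm_sub_le (f (x + h • v) - f x) (f (x + h • v) - f x - h • fderiv ℝ f x v)
    rw [sub_sub_cancel] at this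
    linarith [norm_sub_le (f (x + h • v)) (f x)]
  rw [norm_smul, Real.norm_of_nonneg hh.le] at h4
  rw [div_add' _ _ _ hh.ne', le_div_iff₀ hh]
  linarith

variable [FiniteDimensional ℝ E] [CompleteSpace F]

theorem lim_step {α : Type} {l : Filter α} [l.NeBot] {U : Set E} (hU : IsOpen U)
    {f : α → E → F} {g : E → F} (hf : ∀ᶠ m in l, ContDiffOn ℝ ∞ (f m) U) {C : ℝ}
    (hC : ∀ᶠ m in l, ∀ z ∈ U, ‖iteratedFDeriv ℝ 2 (f m) z‖ ≤ C)
    (hg : ∀ x ∈ U, Tendsto (fun m => f m x) l (𝓝 (g x))) {x : E} (hx : x ∈ U) :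
    DifferentiableAt ℝ g x ∧ Tendsto (fun m => fderiv ℝ (f m) x) l (𝓝 (fderiv ℝ g x)) := by
  obtain ⟨r, hr, hrU⟩ := nhds_basis_closedBall.mem_iff.1 (hU.mem_nhds hx)
  have hC0 : 0 ≤ C := by
    obtain ⟨m, hm⟩ := hC.exists
    exact (norm_nonneg _).trans (hm x hx)
  have T : ∀ᶠ m in l, ∀ y, ‖y - x‖ ≤ r →
      ‖f m y - f m x - fderiv ℝ (f m) x (y - x)‖ ≤ C * ‖y - x‖ * ‖y - x‖ := by
    filter_upwards [hf, hC] with m h1 h2 y hy
    have hs := (closedBall_subset_closedBall hy).trans hrU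
    exact taylor hU h1 hs fun z hz => h2 z (hs hz)
  have hv : ∀ v : E, ∃ L, Tendsto (fun m => fderiv ℝ (f m) x v) l (𝓝 L) := fun v => by
    refine cauchy_map_iff_exists_tendsto.1 (Metric.cauchy_iff.2 ⟨inferInstance, fun ε hε => ?_⟩)
    obtain ⟨h, hh, h1, h2⟩ : ∃ h : ℝ, 0 < h ∧ h * ‖v‖ ≤ r ∧ C * h * ‖v‖ * ‖v‖ < ε / 4 := by
      have t1 : Tendsto (fun h : ℝ => h * ‖v‖) (𝓝[>] 0) (𝓝 (0 * ‖v‖)) :=
        ((continuous_id.mul continuous_const).tendsto 0).mono_left nhdsWithin_le_nhds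
      have t2 : Tendsto (fun h : ℝ => C * h * ‖v‖ * ‖v‖) (𝓝[>] 0) (𝓝 (C * 0 * ‖v‖ * ‖v‖)) :=
        (Continuous.tendsto (by fun_prop) 0).mono_left nhdsWithin_le_nhds
      have t0 : ∀ᶠ h in 𝓝[>] (0 : ℝ), h ∈ Ioi (0 : ℝ) := eventually_mem_nhdsWithin
      obtain ⟨h, a1, a2, a3⟩ := (t0.and ((t1.eventually (eventually_le_nhds (by simpa using hr))).and
          (t2.eventually (eventually_lt_nhds (b := ε / 4) (by simpa using hε))))).exists
      exact ⟨h, a1, a2, a3⟩
    have hn : ‖x + h • v - x‖ = h * ‖v‖ := by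
      rw [add_sub_cancel_left, norm_smul, Real.norm_of_nonneg hh.le]
    have hy : x + h • v ∈ U := hrU (by rw [mem_closedBall, dist_eq_norm, hn]; exact h1)
    have t3 := ((hg _ hy).sub (hg x hx)).const_smul h⁻¹
    set L := h⁻¹ • (g (x + h • v) - g x) with hL
    refine ⟨ball L (ε / 2), ?_, fun a ha b hb => ?_⟩
    · rw [mem_map]
      filter_upwards [T, t3.eventually (ball_mem_nhds L (by positivity : 0 < ε / 4))] with m a1 a2
      have a3 := a1 (x + h • v) (by rw [hn]; exact h1)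
      rw [hn, add_sub_cancel_left, map_smul] at a3
      have a4 : ‖h⁻¹ • (f m (x + h • v) - f m x) - fderiv ℝ (f m) x v‖ ≤ C * h * ‖v‖ * ‖v‖ := by
        have : h⁻¹ • (f m (x + h • v) - f m x) - fderiv ℝ (f m) x v
            = h⁻¹ • (f m (x + h • v) - f m x - h • fderiv ℝ (f m) x v) := by
          rw [smul_sub h⁻¹ _ (h • _), smul_smul, inv_mul_cancel₀ hh.ne', one_smul]
        rw [this, norm_smul, norm_inv, Real.norm_of_nonneg hh.le, inv_mul_le_iff₀ hh]
        linarith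
      rw [mem_preimage, mem_ball]
      have := dist_triangle_left (fderiv ℝ (f m) x v) L (h⁻¹ • (f m (x + h • v) - f m x))
      rw [dist_eq_norm (h⁻¹ • _) (fderiv ℝ (f m) x v)] at this
      linarith
    · have := dist_triangle_right a b L
      rw [mem_ball] at ha hb
      linarith
  choose L hL using hv
  let b := Module.finBasis ℝ E
  let φ : E →L[ℝ] F := b.constrL fun i => L (b i)
  have hφ : Tendsto (fun m => fderiv ℝ (f m) x) l (𝓝 φ) := by
    obtain ⟨K, hK, H⟩ := b.exists_opNorm_le (F := F)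
    rw [tendsto_iff_norm_sub_tendsto_zero]
    have t1 : Tendsto (fun m => K * ∑ i, ‖fderiv ℝ (f m) x (b i) - L (b i)‖) l (𝓝 0) := by
      have := (tendsto_finsetSum Finset.univ fun i _ =>
        tendsto_iff_norm_sub_tendsto_zero.1 (hL (b i))).const_mul K
      simpa using this
    refine squeeze_zero (fun _ => norm_nonneg _) (fun m => H (by positivity) fun i => ?_) t1
    have : (fderiv ℝ (f m) x - φ) (b i) = fderiv ℝ (f m) x (b i) - L (b i) := by simp [φ]
    rw [this]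
    exact Finset.single_le_sum (f := fun i => ‖fderiv ℝ (f m) x (b i) - L (b i)‖)
      (fun _ _ => norm_nonneg _) (Finset.mem_univ i)
  have hT : ∀ y, ‖y - x‖ ≤ r → ‖g y - g x - φ (y - x)‖ ≤ C * ‖y - x‖ * ‖y - x‖ := fun y hy => by
    have t1 : Tendsto (fun m => fderiv ℝ (f m) x (y - x)) l (𝓝 (φ (y - x))) :=
      ((ContinuousLinearMap.apply ℝ F (y - x)).continuous.tendsto φ).comp hφ
    exact le_of_tendsto (((hg y (hrU (by rwa [mem_closedBall, dist_eq_norm]))).sub
      (hg x hx)).sub t1).norm (T.mono fun m hm => hm y hy)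
  have hD : HasFDerivAt g φ x := by
    rw [hasFDerivAt_iff_isLittleO, Asymptotics.isLittleO_iff]
    intro c hc
    have t2 : Tendsto (fun y : E => C * ‖y - x‖) (𝓝 x) (𝓝 (C * ‖x - x‖)) :=
      Continuous.tendsto (by fun_prop) x
    filter_upwards [closedBall_mem_nhds x hr, t2.eventually (eventually_le_nhds (by simpa using hc))]
      with y h1 h2
    rw [mem_closedBall, dist_eq_norm] at h1
    exact (hT y h1).trans (mul_le_mul_of_nonneg_right h2 (norm_nonneg _))
  exact ⟨hD.differentiableAt, hD.fderiv ▸ hφ⟩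

end one

theorem lim_aux [FiniteDimensional ℝ E] {α : Type} {l : Filter α} [l.NeBot] {U : Set E}
    (hU : IsOpen U) (k : ℕ) : ∀ (F : Type) [NormedAddCommGroup F] [NormedSpace ℝ F]
    [CompleteSpace F] (f : α → E → F) (g : E → F), (∀ᶠ m in l, ContDiffOn ℝ ∞ (f m) U) →
    (∀ j, ∃ C, ∀ᶠ m in l, ∀ z ∈ U, ‖iteratedFDeriv ℝ j (f m) z‖ ≤ C) →
    (∀ x ∈ U, Tendsto (fun m => f m x) l (𝓝 (g x))) → ContDiffOn ℝ k g U ∧
      ∀ x ∈ U, Tendsto (fun m => iteratedFDeriv ℝ k (f m) x) l (𝓝 (iteratedFDeriv ℝ k g x)) := by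
  induction k with
  | zero =>
    intro F _ _ _ f g hf hb hg
    obtain ⟨C, hC⟩ := hb 2
    refine ⟨contDiffOn_zero.2 fun x hx =>
      (lim_step hU hf hC hg hx).1.continuousAt.continuousWithinAt, fun x hx => ?_⟩
    simp only [iteratedFDeriv_zero_eq_comp]
    exact ((continuousMultilinearCurryFin0 ℝ E F).symm.continuous.tendsto _).comp (hg x hx)
  | succ k ih =>
    intro F _ _ _ f g hf hb hg
    obtain ⟨C, hC⟩ := hb 2
    obtain ⟨h1, h2⟩ := ih (E →L[ℝ] F) (fun m => fderiv ℝ (f m)) (fderiv ℝ g)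
      (hf.mono fun m hm => smooth_fderiv hU hm)
      (fun j => by simpa only [norm_iteratedFDeriv_fderiv] using hb (j + 1))
      (fun x hx => (lim_step hU hf hC hg hx).2)
    refine ⟨?_, fun x hx => ?_⟩
    · rw [Nat.cast_succ, contDiffOn_succ_iff_fderiv_of_isOpen hU]
      exact ⟨fun x hx => (lim_step hU hf hC hg hx).1.differentiableWithinAt, by simp, h1⟩
    · simp only [iteratedFDeriv_succ_eq_comp_right]
      exact ((continuousMultilinearCurryRightEquiv' ℝ k E F).symm.continuous.tendsto _).comp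
        (h2 x hx)

/-- A pointwise limit of smooth functions with bounded derivatives of every order is smooth, and
all derivatives converge pointwise. -/
theorem lim_smooth [FiniteDimensional ℝ E] {F : Type} [NormedAddCommGroup F] [NormedSpace ℝ F]
    [CompleteSpace F] {α : Type} {l : Filter α} [l.NeBot] {U : Set E} (hU : IsOpen U)
    {f : α → E → F} {g : E → F} (hf : ∀ᶠ m in l, ContDiffOn ℝ ∞ (f m) U)
    (hb : ∀ j, ∃ C, ∀ᶠ m in l, ∀ z ∈ U, ‖iteratedFDeriv ℝ j (f m) z‖ ≤ C)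
    (hg : ∀ x ∈ U, Tendsto (fun m => f m x) l (𝓝 (g x))) : ContDiffOn ℝ ∞ g U ∧
      ∀ k, ∀ x ∈ U,
        Tendsto (fun m => iteratedFDeriv ℝ k (f m) x) l (𝓝 (iteratedFDeriv ℝ k g x)) :=
  ⟨contDiffOn_infty.2 fun k => (lim_aux hU k F f g hf hb hg).1,
    fun k => (lim_aux hU k F f g hf hb hg).2⟩

end Pool.Agent.Lib.HS33
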