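import Mathlib

/-! Schauder estimate with exponent one half for the flat Laplacian of a basis, by mollification. -/

open scoped ContDiff Topology
open MeasureTheory Set Filter

set_option linter.unusedSectionVars false

noncomputable section

namespace Pool.Agent.Lib.HS33

variable {E : Type} [NormedAddCommGroup E] [NormedSpace ℝ E]

/-- Directional derivative. -/
def D (v : E) (f : E → ℝ) : E → ℝ := fun x => fderiv ℝ f x v

theorem D_smooth {f : E → ℝ} (hf : ContDiff ℝ ∞ f) (v : E) : ContDiff ℝ ∞ (D v f) :=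
  (hf.fderiv_right (m := ∞) (by simp)).clm_apply contDiff_const

theorem D_cs {f : E → ℝ} (hf : HasCompactSupport f) (v : E) : HasCompactSupport (D v f) :=
  (hf.fderiv ℝ).comp_left (g := fun L : E →L[ℝ] ℝ => L v) rfl

theorem D_comm {f : E → ℝ} (hf : ContDiff ℝ ∞ f) (u v : E) : D u (D v f) = D v (D u f) := by
  funext x
  have h2 : ContDiffAt ℝ 2 f x := (hf.of_le (WithTop.coe_le_coe.2 (le_top : (2 : ℕ∞) ≤ ⊤))).contDiffAt
  have hs := h2.isSymmSndFDerivAt (by simp)
  have hd : DifferentiableAt ℝ (fderiv ℝ f) x :=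
    ((hf.fderiv_right (m := ∞) (by simp)).differentiable (by simp)) x
  have key : ∀ a b : E, D a (D b f) x = fderiv ℝ (fderiv ℝ f) x a b := by
    intro a b
    unfold D
    rw [fderiv_clm_apply hd (differentiableAt_const b)]
    simp
  rw [key, key]
  exact hs u v

theorem D_sum {ι : Type} [Fintype ι] {f : ι → E → ℝ} (hf : ∀ i, ContDiff ℝ ∞ (f i)) (v : E) :
    D v (fun x => ∑ i, f i x) = fun x => ∑ i, D v (f i) x := by
  funext x
  unfold D
  rw [fderiv_fun_sum (fun i _ => ((hf i).differentiable (by simp)) x)]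
  simp

section meas

variable [FiniteDimensional ℝ E] [MeasurableSpace E] [BorelSpace E] (μ : Measure E)
  [μ.IsAddHaarMeasure]

/-- Average of `h` against the kernel `κ` at scale `s`. -/
def av (κ h : E → ℝ) (s : ℝ) (x : E) : ℝ := ∫ z, κ z * h (x - s • z) ∂μ

theorem int_av {κ h : E → ℝ} (hκ : Continuous κ) (hc : HasCompactSupport κ) (hh : Continuous h)
    (s : ℝ) (x : E) : Integrable (fun z => κ z * h (x - s • z)) μ :=
  (hκ.mul (hh.comp (by fun_prop))).integrable_of_hasCompactSupport hc.mul_right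

theorem ibp {κ h : E → ℝ} (hκ : ContDiff ℝ ∞ κ) (hc : HasCompactSupport κ)
    (hh : ContDiff ℝ ∞ h) (v : E) (s : ℝ) (x : E) :
    s * av μ κ (D v h) s x = av μ (D v κ) h s x := by
  have hd : ∀ z, HasFDerivAt (fun z => h (x - s • z))
      ((fderiv ℝ h (x - s • z)).comp (-(s • ContinuousLinearMap.id ℝ E))) z := fun z =>
    ((hh.differentiable (by simp)) _).hasFDerivAt.comp z
      (((hasFDerivAt_id z).const_smul s).const_sub x)
  have he : ∀ z, fderiv ℝ (fun z => h (x - s • z)) z v = -s * D v h (x - s • z) := fun z => by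
    rw [(hd z).fderiv]; simp [D]
  have h1 := integral_mul_fderiv_eq_neg_fderiv_mul_of_integrable (μ := μ) (f := κ)
    (g := fun z => h (x - s • z)) (v := v)
    (int_av μ (D_smooth hκ v).continuous (D_cs hc v) hh.continuous s x)
    (by
      simp only [he]
      have := (int_av μ hκ.continuous hc (D_smooth hh v).continuous s x).const_mul (-s)
      refine this.congr (Eventually.of_forall fun z => ?_)
      ring)
    (int_av μ hκ.continuous hc hh.continuous s x)
    (fun z _ => (hκ.differentiable (by simp)) z) (fun z _ => (hd z).differentiableAt)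
  simp only [he] at h1
  have h2 : ∫ z, κ z * (-s * D v h (x - s • z)) ∂μ = -(s * av μ κ (D v h) s x) := by
    unfold av
    rw [← integral_const_mul, ← integral_neg]
    exact integral_congr_ae (Eventually.of_forall fun z => by ring)
  rw [h2] at h1
  exact neg_injective h1

theorem int_D {κ : E → ℝ} (hκ : ContDiff ℝ ∞ κ) (hc : HasCompactSupport κ) (v : E) :
    ∫ z, D v κ z ∂μ = 0 := by
  have := ibp μ hκ hc (h := fun _ => 1) contDiff_const v 0 0
  simpa [av] using this.symm

/-- Hoelder condition with exponent one half. -/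
def Hol (f : E → ℝ) (M : ℝ) : Prop := ∀ x y, |f x - f y| ≤ M * √‖x - y‖

theorem av_le {κ β f : E → ℝ} (hκ : Continuous κ) (hc : HasCompactSupport κ)
    (h0 : ∫ z, κ z ∂μ = 0) (hβ : Integrable β μ) (hb : ∀ z, |κ z| * √‖z‖ ≤ β z)
    (hf : Continuous f) {M : ℝ} (hM : 0 ≤ M) (hH : Hol f M) {s : ℝ} (hs : 0 ≤ s) (x : E) :
    |av μ κ f s x| ≤ (∫ z, β z ∂μ) * (M * √s) := by
  have hi : Integrable κ μ := hκ.integrable_of_hasCompactSupport hc
  have e : av μ κ f s x = ∫ z, κ z * (f (x - s • z) - f x) ∂μ := by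
    simp only [mul_sub]
    rw [integral_sub (int_av μ hκ hc hf s x) (hi.mul_const _), integral_mul_const, h0]
    simp [av]
  rw [e, ← integral_mul_const, ← Real.norm_eq_abs]
  refine norm_integral_le_of_norm_le (hβ.mul_const _) (Eventually.of_forall fun z => ?_)
  rw [Real.norm_eq_abs, abs_mul]
  have h1 := hH (x - s • z) x
  have h2 : ‖x - s • z - x‖ = s * ‖z‖ := by
    rw [sub_sub_cancel_left, norm_neg, norm_smul, Real.norm_of_nonneg hs]
  rw [h2, Real.sqrt_mul hs] at h1
  calc |κ z| * |f (x - s • z) - f x| ≤ |κ z| * (M * (√s * √‖z‖)) := by gcongr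
    _ = (|κ z| * √‖z‖) * (M * √s) := by ring
    _ ≤ β z * (M * √s) := by gcongr; exact hb z

theorem bound1 {κ : E → ℝ} (hκ : Continuous κ) (hc : HasCompactSupport κ)
    (h0 : ∫ z, κ z ∂μ = 0) : ∃ C, 0 ≤ C ∧ ∀ (f : E → ℝ) (M : ℝ), Continuous f → 0 ≤ M → Hol f M →
      ∀ s, 0 ≤ s → ∀ x, |av μ κ f s x| ≤ C * (M * √s) := by
  have hβ : Integrable (fun z => |κ z| * √‖z‖) μ :=
    (hκ.abs.mul (by fun_prop)).integrable_of_hasCompactSupport
      (hc.comp_left (g := fun t : ℝ => |t|) abs_zero).mul_right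
  exact ⟨∫ z, |κ z| * √‖z‖ ∂μ, integral_nonneg fun z => by positivity,
    fun f M hf hM hH s hs x => av_le μ hκ hc h0 hβ (fun _ => le_rfl) hf hM hH hs x⟩

theorem bound2 {κ : E → ℝ} (hκ : ContDiff ℝ ∞ κ) (hc : HasCompactSupport κ) :
    ∃ C, 0 ≤ C ∧ ∀ (f : E → ℝ) (M : ℝ), Continuous f → 0 ≤ M → Hol f M →
      ∀ s, 0 < s → ∀ x y, ‖x - y‖ ≤ s →
        |av μ κ f s x - av μ κ f s y| ≤ C * (‖x - y‖ / s) * (M * √s) := by
  obtain ⟨L, hL⟩ := hκ.lipschitzWith_of_hasCompactSupport hc (by simp)
  obtain ⟨R, hR0, hR⟩ := hc.isCompact.isBounded.subset_ball_lt 0 0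
  have hz : ∀ z, R ≤ ‖z‖ → κ z = 0 := fun z h => by
    by_contra hne
    have := hR (subset_tsupport _ hne)
    rw [mem_ball_zero_iff] at this
    linarith
  set B : Set E := Metric.closedBall 0 (R + 1) with hB
  have hBm : MeasurableSet B := Metric.isClosed_closedBall.measurableSet
  have hBf : μ B < ⊤ := (isCompact_closedBall _ _).measure_lt_top
  refine ⟨L * √(R + 1) * μ.real B, by positivity, fun f M hf hM hH s hs x y hxy => ?_⟩
  set h : E := s⁻¹ • (x - y) with hh
  have hn : ‖h‖ = ‖x - y‖ / s := by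
    rw [hh, norm_smul, norm_inv, Real.norm_of_nonneg hs.le]; ring
  have hn1 : ‖h‖ ≤ 1 := by rw [hn]; exact (div_le_one hs).2 hxy
  have hκ' : Continuous fun z => κ (z + h) := hκ.continuous.comp (by fun_prop)
  have hc' : HasCompactSupport fun z => κ (z + h) :=
    hc.comp_homeomorph (Homeomorph.addRight h)
  have e1 : av μ κ f s x = av μ (fun z => κ (z + h)) f s y := by
    unfold av
    rw [← integral_add_right_eq_self (fun z => κ z * f (x - s • z)) h]
    refine integral_congr_ae (Eventually.of_forall fun z => ?_)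
    have : x - s • (z + h) = y - s • z := by
      rw [hh, smul_add, smul_smul, mul_inv_cancel₀ hs.ne', one_smul]; abel
    simp only [this]
  have e2 : av μ (fun z => κ (z + h)) f s y - av μ κ f s y
      = av μ (fun z => κ (z + h) - κ z) f s y := by
    unfold av
    rw [← integral_sub (int_av μ hκ' hc' hf s y) (int_av μ hκ.continuous hc hf s y)]
    simp only [sub_mul]
  have h0 : ∫ z, (κ (z + h) - κ z) ∂μ = 0 := by
    rw [integral_sub (hκ'.integrable_of_hasCompactSupport hc')
      (hκ.continuous.integrable_of_hasCompactSupport hc), integral_add_right_eq_self, sub_self]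
  have hβ : Integrable (B.indicator fun _ => (L * ‖h‖ * √(R + 1) : ℝ)) μ :=
    (integrable_indicator_iff hBm).2 (integrableOn_const hBf.ne)
  have := av_le μ (κ := fun z => κ (z + h) - κ z) (hκ'.sub hκ.continuous) (hc'.sub hc) h0 hβ
    (fun z => by
      by_cases hzB : z ∈ B
      · rw [indicator_of_mem hzB]
        have h1 := hL.dist_le_mul (z + h) z
        rw [Real.dist_eq, dist_eq_norm, add_sub_cancel_left] at h1
        have h2 : ‖z‖ ≤ R + 1 := by simpa [hB] using hzB
        gcongr
      · rw [indicator_of_notMem hzB]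
        have h2 : R + 1 < ‖z‖ := by simpa [hB] using hzB
        have h3 : R ≤ ‖z + h‖ := by
          have := norm_sub_le (z + h) h
          rw [add_sub_cancel_right] at this
          linarith
        simp [hz z (by linarith), hz _ h3]) hf hM hH hs.le y
  rw [e1, e2]
  refine this.trans (le_of_eq ?_)
  rw [integral_indicator_const _ hBm, hn, smul_eq_mul]
  ring

theorem av_deriv {κ u : E → ℝ} (hκ : Continuous κ) (hc : HasCompactSupport κ)
    (hu : ContDiff ℝ ∞ u) (x : E) (s : ℝ) :
    HasDerivAt (fun t => av μ κ u t x) (∫ z, κ z * -(fderiv ℝ u (x - s • z) z) ∂μ) s := by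
  have hu' : Continuous (fderiv ℝ u) := (hu.fderiv_right (m := ∞) (by simp)).continuous
  obtain ⟨R, hR0, hR⟩ := hc.isCompact.isBounded.subset_ball_lt 0 0
  obtain ⟨B, hB⟩ := (isCompact_closedBall x ((|s| + 1) * R)).exists_bound_of_continuousOn
    hu'.continuousOn
  have hcont : ∀ t : ℝ, Continuous fun z => κ z * -(fderiv ℝ u (x - t • z) z) := fun t =>
    hκ.mul ((hu'.comp (by fun_prop)).clm_apply continuous_id).neg
  refine (hasDerivAt_integral_of_dominated_loc_of_deriv_le (μ := μ)
    (F := fun t z => κ z * u (x - t • z))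
    (F' := fun t z => κ z * -(fderiv ℝ u (x - t • z) z)) (bound := fun z => |κ z| * (B * R))
    (Metric.ball_mem_nhds s one_pos)
    (Eventually.of_forall fun t => (int_av μ hκ hc hu.continuous t x).aestronglyMeasurable)
    (int_av μ hκ hc hu.continuous s x) (hcont s).aestronglyMeasurable
    (Eventually.of_forall fun z t ht => ?_)
    ((hκ.integrable_of_hasCompactSupport hc).abs.mul_const _)
    (Eventually.of_forall fun z t _ => ?_)).2
  · by_cases hz : κ z = 0
    · simp [hz]
    · have h1 : ‖z‖ ≤ R := (mem_ball_zero_iff.1 (hR (subset_tsupport _ hz))).le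
      have h2 : |t| ≤ |s| + 1 := by
        have := abs_sub_abs_le_abs_sub t s
        rw [Metric.mem_ball, Real.dist_eq] at ht
        linarith
      have h3 := hB (x - t • z) (by
        rw [Metric.mem_closedBall, dist_eq_norm, sub_sub_cancel_left, norm_neg, norm_smul,
          Real.norm_eq_abs]
        gcongr)
      rw [norm_mul, norm_neg, Real.norm_eq_abs]
      have h4 : 0 ≤ B := (norm_nonneg _).trans h3
      gcongr
      exact ((fderiv ℝ u (x - t • z)).le_opNorm z).trans (by gcongr)
  · have h1 : HasDerivAt (fun t : ℝ => x - t • z) (-z) t := by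
      simpa using ((hasDerivAt_id t).smul_const z).const_sub x
    have h2 := ((hu.differentiable (by simp)) (x - t • z)).hasFDerivAt.comp_hasDerivAt t h1
    simpa using h2.const_mul (κ z)

variable {ι : Type} [Fintype ι] (b : Module.Basis ι ℝ E)

/-- Flat Laplacian of the basis. -/
def lap (w : E → ℝ) : E → ℝ := fun x => ∑ i, D (b i) (D (b i) w) x

theorem lap_smooth {w : E → ℝ} (hw : ContDiff ℝ ∞ w) : ContDiff ℝ ∞ (lap b w) :=
  ContDiff.sum fun _ _ => D_smooth (D_smooth hw _) _

theorem D_lap {w : E → ℝ} (hw : ContDiff ℝ ∞ w) (v : E) : D v (lap b w) = lap b (D v w) := by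
  unfold lap
  rw [D_sum (fun i => D_smooth (D_smooth hw _) _)]
  funext x
  refine Finset.sum_congr rfl fun i _ => ?_
  rw [D_comm (D_smooth hw _), D_comm hw v]

theorem kernels : ∃ φ ψ : E → ℝ, ContDiff ℝ ∞ φ ∧ HasCompactSupport φ ∧ ContDiff ℝ ∞ ψ ∧
    HasCompactSupport ψ ∧ ∫ z, φ z ∂μ = 1 ∧ ∀ i z, D (b i) ψ z = b.repr z i * φ z := by
  classical
  let c : ι → E →L[ℝ] ℝ := fun i => LinearMap.toContinuousLinearMap (b.coord i)
  have hc : ∀ i z, c i z = b.repr z i := fun i z => rfl
  let q : E → ℝ := fun z => ∑ i, c i z * c i z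
  have hq : ContDiff ℝ ∞ q := ContDiff.sum fun i _ => (c i).contDiff.mul (c i).contDiff
  have hdq : ∀ i z, fderiv ℝ q z (b i) = 2 * b.repr z i := fun i z => by
    have : HasFDerivAt q (∑ j, (c j z • c j + c j z • c j)) z :=
      HasFDerivAt.fun_sum fun j _ => (c j).hasFDerivAt.mul (c j).hasFDerivAt
    rw [this.fderiv]
    simp only [sum_apply, add_apply,
      smul_apply, hc, Module.Basis.repr_self, smul_eq_mul]
    rw [Finset.sum_eq_single i (fun j _ hj => by simp [hj.symm]) (by simp)]
    simp; ring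
  let G : ℝ → ℝ := fun t => -expNegInvGlue (1 - t)
  have hG : ContDiff ℝ ∞ G := by fun_prop
  have hG' : ∀ t, deriv G t = (1 - t)⁻¹ ^ 2 * expNegInvGlue (1 - t) := fun t => by
    have h1 := expNegInvGlue.hasDerivAt_polynomial_eval_inv_mul 1 (1 - t)
    have h2 := (h1.comp t ((hasDerivAt_id t).const_sub 1)).neg
    have h3 : HasDerivAt G ((1 - t)⁻¹ ^ 2 * expNegInvGlue (1 - t)) t := by
      refine (h2.congr_of_eventuallyEq (Eventually.of_forall fun y => ?_)).congr_deriv ?_
      · simp [G]
      · simp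
    exact h3.deriv
  have hg : ContDiff ℝ ∞ (deriv G) := hG.deriv' (n := ∞)
  have hK : IsCompact ((b.equivFunL) ⁻¹' Metric.closedBall 0 1) :=
    b.equivFunL.toHomeomorph.isCompact_preimage.2 (isCompact_closedBall _ _)
  have hout : ∀ z, z ∉ (b.equivFunL) ⁻¹' Metric.closedBall 0 1 → 1 - q z ≤ 0 := fun z hz => by
    by_contra hlt
    refine hz ?_
    rw [mem_preimage, mem_closedBall_zero_iff, pi_norm_le_iff_of_nonneg zero_le_one]
    intro i
    have h1 : c i z * c i z ≤ q z :=
      Finset.single_le_sum (f := fun i => c i z * c i z) (fun j _ => mul_self_nonneg _)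
        (Finset.mem_univ i)
    have h2 : b.equivFunL z i = c i z := rfl
    rw [h2, Real.norm_eq_abs]
    exact abs_le_one_iff_mul_self_le_one.2 (by linarith [not_le.1 hlt])
  have hφc : HasCompactSupport fun z => deriv G (q z) := HasCompactSupport.intro hK fun z hz => by
    rw [hG', expNegInvGlue.zero_of_nonpos (hout z hz), mul_zero]
  have hψc : HasCompactSupport fun z => G (q z) := HasCompactSupport.intro hK fun z hz => by
    simp [G, expNegInvGlue.zero_of_nonpos (hout z hz)]
  have hpos : 0 < ∫ z, deriv G (q z) ∂μ := by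
    refine Continuous.integral_pos_of_hasCompactSupport_nonneg_nonzero (x := 0)
      (hg.comp hq).continuous hφc (fun z => ?_) ?_
    · show 0 ≤ deriv G (q z)
      rw [hG']; exact mul_nonneg (sq_nonneg _) (expNegInvGlue.nonneg _)
    · show deriv G (q 0) ≠ 0
      have : q 0 = 0 := by simp [q]
      rw [hG', this]
      have := expNegInvGlue.pos_of_pos (x := 1 - 0) (by norm_num)
      positivity
  set I := ∫ z, deriv G (q z) ∂μ with hI
  refine ⟨fun z => I⁻¹ * deriv G (q z), fun z => (I⁻¹ / 2) * G (q z),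
    contDiff_const.mul (hg.comp hq), hφc.mul_left, contDiff_const.mul (hG.comp hq), hψc.mul_left,
    by rw [integral_const_mul, ← hI, inv_mul_cancel₀ hpos.ne'], fun i z => ?_⟩
  have h1 : HasFDerivAt (fun z => (I⁻¹ / 2) * G (q z))
      ((I⁻¹ / 2) • (deriv G (q z) • fderiv ℝ q z)) z :=
    (((hG.differentiable (by simp)) (q z)).hasDerivAt.comp_hasFDerivAt z
      ((hq.differentiable (by simp)) z).hasFDerivAt).const_mul _
  unfold D
  rw [h1.fderiv]
  simp only [smul_apply, hdq, smul_eq_mul]
  ring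

theorem av_deriv2 {φ ψ w : E → ℝ} (hφ : ContDiff ℝ ∞ φ) (hφc : HasCompactSupport φ)
    (hψ : ContDiff ℝ ∞ ψ) (hψc : HasCompactSupport ψ)
    (h : ∀ i z, D (b i) ψ z = b.repr z i * φ z) (hw : ContDiff ℝ ∞ w) (a c x : E) {s : ℝ}
    (hs : s ≠ 0) :
    HasDerivAt (fun t => av μ φ (D a (D c w)) t x)
      (-(s⁻¹ * av μ (D c (D a ψ)) (lap b w) s x)) s := by
  have hu := D_smooth (D_smooth hw c) a
  refine (av_deriv μ hφ.continuous hφc hu x s).congr_deriv ?_
  set u := D a (D c w) with hu'
  have e1 : ∀ z, φ z * -(fderiv ℝ u (x - s • z) z)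
      = -∑ i, D (b i) ψ z * D (b i) u (x - s • z) := fun z => by
    have : fderiv ℝ u (x - s • z) z = ∑ i, b.repr z i * D (b i) u (x - s • z) := by
      have := congrArg (fderiv ℝ u (x - s • z)) (b.sum_repr z)
      rw [map_sum] at this
      simp only [map_smul, smul_eq_mul] at this
      exact this.symm
    rw [this, mul_neg, Finset.mul_sum]
    simp only [h]
    congr 1
    exact Finset.sum_congr rfl fun i _ => by ring
  simp only [e1]
  rw [integral_neg, integral_finsetSum _ fun i _ =>
    int_av μ (D_smooth hψ _).continuous (D_cs hψc _) (D_smooth hu _).continuous s x]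
  have e2 : ∀ i, ∫ z, D (b i) ψ z * D (b i) u (x - s • z) ∂μ
      = s * av μ ψ (D (b i) (D (b i) u)) s x := fun i =>
    (ibp μ hψ hψc (D_smooth hu _) (b i) s x).symm
  simp only [e2]
  have e3 : ∑ i, av μ ψ (D (b i) (D (b i) u)) s x = av μ ψ (lap b u) s x := by
    unfold av lap
    rw [← integral_finsetSum _ fun i _ =>
      int_av μ hψ.continuous hψc (D_smooth (D_smooth hu _) _).continuous s x]
    simp only [Finset.mul_sum]
  have e4 : lap b u = D a (D c (lap b w)) := by rw [D_lap b hw, D_lap b (D_smooth hw c)]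
  rw [← Finset.mul_sum, e3, e4, ibp μ hψ hψc (D_smooth (lap_smooth b hw) c),
    ← ibp μ (D_smooth hψ a) (D_cs hψc a) (lap_smooth b hw), ← mul_assoc, inv_mul_cancel₀ hs,
    one_mul]

include μ in
theorem schauder_mu (a c : E) : ∃ C, 0 ≤ C ∧ ∀ (w : E → ℝ) (M B : ℝ), ContDiff ℝ ∞ w →
    (∀ x, |w x| ≤ B) → 0 ≤ M → Hol (lap b w) M → Hol (D a (D c w)) (C * M) := by
  obtain ⟨φ, ψ, hφ, hφc, hψ, hψc, hI, h⟩ := kernels μ b
  have hκ := D_smooth (D_smooth hψ a) c
  have hκc := D_cs (D_cs hψc a) c
  obtain ⟨C1, hC1, H1⟩ := bound1 μ hκ.continuous hκc (int_D μ (D_smooth hψ a) (D_cs hψc a) c)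
  obtain ⟨C2, hC2, H2⟩ := bound2 μ hκ hκc
  refine ⟨4 * C1 + 2 * C2, by positivity, fun w M B hw hB hM hH => ?_⟩
  have hu := D_smooth (D_smooth hw c) a
  have hf := (lap_smooth b hw).continuous
  have hd := fun x s hs => av_deriv2 μ b hφ hφc hψ hψc h hw a c x (s := s) hs
  set u := D a (D c w) with hu'
  set κ := D c (D a ψ) with hκ'
  have hcont : ∀ x, Continuous fun t => av μ φ u t x := fun x =>
    continuous_iff_continuousAt.2 fun s => (av_deriv μ hφ.continuous hφc hu x s).continuousAt
  have A : ∀ x r, 0 < r → |av μ φ u r x - u x| ≤ 2 * C1 * M * √r := fun x r hr => by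
    have h0 : av μ φ u 0 x = u x := by
      simp only [av, zero_smul, sub_zero]
      rw [integral_mul_const, hI, one_mul]
    have hε : ∀ ε, 0 < ε → ε ≤ r → |av μ φ u r x - av μ φ u ε x| ≤ 2 * C1 * M * √r := by
      intro ε hε hεr
      refine image_norm_le_of_norm_deriv_right_le_deriv_boundary' (a := ε) (b := r)
        (f := fun t => av μ φ u t x - av μ φ u ε x)
        (f' := fun t => -(t⁻¹ * av μ κ (lap b w) t x))
        (B := fun t => 2 * C1 * M * √t) (B' := fun t => 2 * C1 * M * (1 / (2 * √t)))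
        ((hcont x).sub continuous_const).continuousOn
        (fun t ht => ((hd x t (hε.trans_le ht.1).ne').sub_const _).hasDerivWithinAt)
        (by simp only [sub_self, norm_zero]; positivity) (by fun_prop)
        (fun t ht => ((Real.hasDerivAt_sqrt (hε.trans_le ht.1).ne').const_mul _).hasDerivWithinAt)
        (fun t ht => ?_) ⟨hεr, le_rfl⟩
      have ht0 : 0 < t := hε.trans_le ht.1
      have hs : 0 < √t := Real.sqrt_pos.2 ht0
      rw [norm_neg, norm_mul, norm_inv, Real.norm_of_nonneg ht0.le, Real.norm_eq_abs]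
      calc t⁻¹ * |av μ κ (lap b w) t x| ≤ t⁻¹ * (C1 * (M * √t)) := by
            gcongr; exact H1 _ M hf hM hH t ht0.le x
        _ = 2 * C1 * M * (1 / (2 * √t)) := by
            conv_lhs => rw [← Real.mul_self_sqrt ht0.le, Real.sqrt_mul_self hs.le]
            field_simp
    have hlim : Tendsto (fun ε => |av μ φ u r x - av μ φ u ε x|) (𝓝[>] 0)
        (𝓝 |av μ φ u r x - u x|) := by
      rw [← h0]
      exact ((continuous_const.sub (hcont x)).abs.tendsto 0).mono_left nhdsWithin_le_nhds
    refine le_of_tendsto hlim ?_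
    filter_upwards [Ioc_mem_nhdsGT hr] with ε hε' using hε ε hε'.1 hε'.2
  have hκ2 := D_smooth (D_smooth hφ a) c
  have hκ2c := D_cs (D_cs hφc a) c
  have hinf : ∀ x, Tendsto (fun T => av μ φ u T x) atTop (𝓝 0) := fun x => by
    set J := (∫ z, |D c (D a φ) z| ∂μ) * B with hJ
    have hb : ∀ T, |av μ (D c (D a φ)) w T x| ≤ J := fun T => by
      rw [hJ, ← integral_mul_const, ← Real.norm_eq_abs]
      refine norm_integral_le_of_norm_le
        ((hκ2.continuous.integrable_of_hasCompactSupport hκ2c).abs.mul_const _)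
        (Eventually.of_forall fun z => ?_)
      rw [Real.norm_eq_abs, abs_mul]
      gcongr
      exact hB _
    have ht : Tendsto (fun T : ℝ => T⁻¹ * T⁻¹ * J) atTop (𝓝 0) := by
      simpa using (tendsto_inv_atTop_zero.mul tendsto_inv_atTop_zero).mul_const J
    refine squeeze_zero_norm' ?_ ht
    filter_upwards [eventually_gt_atTop 0] with T hT
    have e : av μ φ u T x = T⁻¹ * T⁻¹ * av μ (D c (D a φ)) w T x := by
      rw [← ibp μ (D_smooth hφ a) (D_cs hφc a) hw, ← ibp μ hφ hφc (D_smooth hw c)]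
      field_simp
      rfl
    rw [e, norm_mul, Real.norm_of_nonneg (by positivity), Real.norm_eq_abs]
    gcongr
    exact hb T
  intro x y
  rcases eq_or_ne x y with rfl | hxy
  · simp
  set r := ‖x - y‖ with hr'
  have hr : 0 < r := norm_pos_iff.2 (sub_ne_zero.2 hxy)
  have hsr : 0 < √r := Real.sqrt_pos.2 hr
  have Bd : |av μ φ u r x - av μ φ u r y| ≤ 2 * C2 * M * √r := by
    have hT : ∀ T, r ≤ T → |(av μ φ u T x - av μ φ u T y) - (av μ φ u r x - av μ φ u r y)|
        ≤ 2 * C2 * M * √r := by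
      intro T hT
      have hBd : ∀ t, 0 < t → HasDerivAt (fun t => 2 * C2 * M * √r - 2 * C2 * M * r * (√t)⁻¹)
          (-(2 * C2 * M * r * (-(1 / (2 * √t)) / √t ^ 2))) t := fun t ht =>
        (((Real.hasDerivAt_sqrt ht.ne').inv (Real.sqrt_pos.2 ht).ne').const_mul _).const_sub _
      have := image_norm_le_of_norm_deriv_right_le_deriv_boundary' (a := r) (b := T)
        (f := fun t => (av μ φ u t x - av μ φ u t y) - (av μ φ u r x - av μ φ u r y))
        (f' := fun t => -(t⁻¹ * av μ κ (lap b w) t x) - -(t⁻¹ * av μ κ (lap b w) t y))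
        (B := fun t => 2 * C2 * M * √r - 2 * C2 * M * r * (√t)⁻¹)
        (B' := fun t => -(2 * C2 * M * r * (-(1 / (2 * √t)) / √t ^ 2)))
        (((hcont x).sub (hcont y)).sub continuous_const).continuousOn
        (fun t ht => (((hd x t (hr.trans_le ht.1).ne').sub
          (hd y t (hr.trans_le ht.1).ne')).sub_const _).hasDerivWithinAt)
        (by
          simp only [sub_self, norm_zero]
          have : r * (√r)⁻¹ = √r := by
            conv_lhs => arg 1; rw [← Real.mul_self_sqrt hr.le]
            field_simp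
          rw [mul_assoc _ r, this, sub_self])
        (fun t ht => (hBd t (hr.trans_le ht.1)).continuousAt.continuousWithinAt)
        (fun t ht => (hBd t (hr.trans_le ht.1)).hasDerivWithinAt)
        (fun t ht => by
          have ht0 : 0 < t := hr.trans_le ht.1
          have hs : 0 < √t := Real.sqrt_pos.2 ht0
          have h2 := H2 _ M hf hM hH t ht0 y x (by rw [norm_sub_rev]; exact ht.1)
          rw [norm_sub_rev y x, ← hr'] at h2
          rw [neg_sub_neg, ← mul_sub, norm_mul, norm_inv, Real.norm_of_nonneg ht0.le,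
            Real.norm_eq_abs]
          refine (mul_le_mul_of_nonneg_left h2 (by positivity)).trans (le_of_eq ?_)
          obtain ⟨p, hp, rfl⟩ : ∃ p, 0 < p ∧ t = p * p := ⟨√t, hs, (Real.mul_self_sqrt ht0.le).symm⟩
          rw [Real.sqrt_mul_self hp.le]
          field_simp) ⟨hT, le_rfl⟩
      refine this.trans (sub_le_self _ (by positivity))
    have hlim : Tendsto
        (fun T => |(av μ φ u T x - av μ φ u T y) - (av μ φ u r x - av μ φ u r y)|) atTop
        (𝓝 |(0 - 0) - (av μ φ u r x - av μ φ u r y)|) :=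
      (((hinf x).sub (hinf y)).sub_const _).abs
    have := le_of_tendsto hlim ((eventually_ge_atTop r).mono hT)
    rwa [sub_self, zero_sub, abs_neg] at this
  have h1 := A x r hr
  have h2 := A y r hr
  calc |u x - u y| = |-(av μ φ u r x - u x) + (av μ φ u r x - av μ φ u r y)
        + (av μ φ u r y - u y)| := by congr 1; ring
    _ ≤ |av μ φ u r x - u x| + |av μ φ u r x - av μ φ u r y| + |av μ φ u r y - u y| := by
        refine (abs_add_three _ _ _).trans ?_
        rw [abs_neg]
    _ ≤ (4 * C1 + 2 * C2) * M * √r := by linarith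

end meas

/-- Flat Schauder estimate. -/
theorem schauder [FiniteDimensional ℝ E] {ι : Type} [Fintype ι] (b : Module.Basis ι ℝ E) :
    ∃ C, 0 ≤ C ∧ ∀ (w : E → ℝ) (M B : ℝ), ContDiff ℝ ∞ w → (∀ x, |w x| ≤ B) → 0 ≤ M →
      Hol (lap b w) M → ∀ i j, Hol (D (b i) (D (b j) w)) (C * M) := by
  borelize E
  choose C hC H using fun p : ι × ι => schauder_mu (Measure.addHaar : Measure E) b (b p.1) (b p.2)
  refine ⟨∑ p, C p, Finset.sum_nonneg fun p _ => hC p, fun w M B hw hB hM hH i j x y => ?_⟩
  refine (H (i, j) w M B hw hB hM hH x y).trans ?_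
  gcongr
  exact Finset.single_le_sum (fun p _ => hC p) (Finset.mem_univ (i, j))

end Pool.Agent.Lib.HS33
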